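import Pool.Agent.Helper96.Fc.Defs

/-!
# Compact spaces and Eberlein compact spaces inside a transitive model

The compact spaces are closed subsets `X` of Cantor cubes `2 ^ Γ`. The points of the cube of the
model `N` are the subsets of `Γ` that belong to `N`. All finite sets are meant in the usual sense:
finite sets of elements of a transitive model of `ZFC` belong to the model.
-/

namespace Pool.Agent.Helper96.LS

open Pool.Agent.Helper96.Fc

/-- an enumeration of the rational numbers, as real numbers -/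
noncomputable def rat (n : ℕ) : ℝ := ((Denumerable.ofNat ℚ n : ℚ) : ℝ)

/-- the number `n` as a set -/
noncomputable def nat (n : ℕ) : ZFSet.{0} := Ordinal.toZFSet (n : Ordinal.{0})

/-- `F` is a finite set of elements of `Γ`. -/
def FinSub (Γ : ZFSet.{0}) (F : Set ZFSet.{0}) : Prop := F.Finite ∧ ∀ z ∈ F, z ∈ Γ

/-- The points `x` and `y` have the same coordinates in `F`. -/
def Agree (F : Set ZFSet.{0}) (x y : ZFSet.{0}) : Prop := ∀ z ∈ F, z ∈ x ↔ z ∈ y

/-- In `N`, the set `X` is a closed subset of the Cantor cube `2 ^ Γ` (so, a compact space). -/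
structure ClosedCube (N : Set ZFSet.{0}) (Γ X : ZFSet.{0}) : Prop where
  Γ_mem : Γ ∈ N
  X_mem : X ∈ N
  sub : ∀ x ∈ X, x ⊆ Γ
  closed : ∀ x ∈ N, x ⊆ Γ → (∀ F, FinSub Γ F → ∃ y ∈ X, Agree F x y) → x ∈ X

/-- `K` is the closure of `A` in the subspace `X` of `2 ^ Γ`. -/
def IsClosure (Γ X A K : ZFSet.{0}) : Prop :=
  ∀ x, x ∈ K ↔ x ∈ X ∧ ∀ F, FinSub Γ F → ∃ y ∈ A, Agree F x y

/-- The restriction of the real function `e` to `K × Δ` is an element of `N`: the set of the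
triples `⟨x, ⟨d, n⟩⟩` for which the rational number with number `n` is below `e x d` is in `N`. -/
def InN (N : Set ZFSet.{0}) (K Δ : ZFSet.{0}) (e : ZFSet.{0} → ZFSet.{0} → ℝ) : Prop :=
  ∃ g ∈ N, ∀ x ∈ K, ∀ d ∈ Δ, ∀ n : ℕ,
    ZFSet.pair x (ZFSet.pair d (nat n)) ∈ g ↔ rat n < e x d

/-- In `N`, the subspace `K` of `2 ^ Γ` has a continuous injection `x ↦ (e x d)_{d ∈ Δ}` into some
`c₀(Δ)` with the pointwise topology, with bounded range. For compact `K` this says that `K` is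
Eberlein compact in `N`. -/
def Eberlein (N : Set ZFSet.{0}) (Γ K : ZFSet.{0}) : Prop :=
  ∃ Δ ∈ N, ∃ e : ZFSet.{0} → ZFSet.{0} → ℝ, InN N K Δ e ∧
    (∃ C : ℝ, ∀ x ∈ K, ∀ d ∈ Δ, |e x d| ≤ C) ∧
    (∀ x ∈ K, ∀ ε > 0, {d | d ∈ Δ ∧ ε ≤ |e x d|}.Finite) ∧
    (∀ x ∈ K, ∀ y ∈ K, x ≠ y → ∃ d ∈ Δ, e x d ≠ e y d) ∧
    ∀ x ∈ K, ∀ d ∈ Δ, ∀ ε > 0, ∃ F, FinSub Γ F ∧ ∀ y ∈ K, Agree F x y → |e y d - e x d| < ε

/-- In `N`, the set `A` has size at most the continuum: it is empty or an image of the power set of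
`ω`. -/
def SizeLeC (N : Set ZFSet.{0}) (A : ZFSet.{0}) : Prop :=
  ∃ S, IsPow N (Ordinal.toZFSet Ordinal.omega0) S ∧ Onto N S A

end Pool.Agent.Helper96.LS
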