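import Pool.Agent.Helper96.LS.Poset
import Pool.Agent.Helper96.LS.MDefs
import Pool.Agent.Helper23.PI.TL

/-!
# Names
-/

open Cardinal Ordinal Set Pool.Agent.Helper96.Fc Pool.Agent.Helper23.PI

set_option linter.unusedSectionVars false

namespace Pool.Agent.Helper96.LS

/-- the ordinal of a point -/
noncomputable def od (x : T) : Ordinal.{0} := (ToType.toOrd x).1

theorem od_lt (x : T) : od x < kap.ord := (ToType.toOrd x).2

theorem od_lt_od {x y : T} : od x < od y ↔ x < y := by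
  unfold od
  rw [Subtype.coe_lt_coe]
  exact ToType.mk.symm.lt_iff_lt

theorem od_inj {x y : T} (h : od x = od y) : x = y := by
  rcases lt_trichotomy x y with h1 | h1 | h1
  · exact absurd h (od_lt_od.2 h1).ne
  · exact h1
  · exact absurd h (od_lt_od.2 h1).ne'

theorem exists_od {a : Ordinal.{0}} (h : a < kap.ord) : ∃ x : T, od x = a :=
  ⟨ToType.mk ⟨a, h⟩, by simp [od]⟩

/-- name of the ordinal of a point -/
noncomputable def oN (x : T) : Nm Cond := ordN Cond (od x)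

theorem oN_inj {x y : T} (h : oN x = oN y) : x = y := od_inj (ordN_inj' h)

theorem oN_inj' {x y : T} {p : Cond} (h : FEq (oN x) (oN y) p) : x = y := od_inj (ordN_inj h)

/-- name of the point `x_b`, that is the set of the `a` with `a = b` or `b ∈ c_a` -/
noncomputable def xN (b : T) : Nm Cond :=
  Nm.mk {t : T × Cond // t.1 = b ∨ t.2.c t.1 b} (fun t => oN t.1.1) (fun t => t.1.2)

/-- name of a point of the space -/
noncomputable def ptN : Option T → Nm Cond
  | none => ordN Cond 0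
  | some b => xN b

/-- name of the space -/
noncomputable def XN : Nm Cond := Nm.mk (Option T) ptN (fun _ => ⊤)

/-- name of `𝔠⁺` -/
noncomputable def ΓN : Nm Cond := ordN Cond kap.ord

/-- name of a set of natural numbers -/
noncomputable def rN (r : Set ℕ) : Nm Cond :=
  Nm.mk r (fun n => ordN Cond (n.1 : Ordinal.{0})) (fun _ => ⊤)

/-- the disjointing function -/
noncomputable def gg (p : Cond) : T → T := p.dis.choose

theorem gg1 (p : Cond) : ∀ a x, p.c a x → gg p a < a := p.dis.choose_spec.1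

theorem gg2 (p : Cond) : ∀ a a' x, p.c a x → p.c a' x → gg p a ≤ x → gg p a' ≤ x → a = a' :=
  p.dis.choose_spec.2

/-- the clopen partition -/
def WW (p : Cond) : Option T → T → Prop
  | none, _ => False
  | some b, a => a < p.d ∧ (a = b ∨ (p.c a b ∧ gg p a ≤ b))

open Classical in
/-- the embedding -/
noncomputable def e0 (p : Cond) (o : Option T) (a : T) : ℝ := if WW p o a then 1 else 0

/-- name of the embedding -/
noncomputable def codeN (p : Cond) : Nm Cond :=
  Nm.mk {t : Option T × T × ℕ // rat t.2.2 < e0 p t.1 t.2.1}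
    (fun t => pairN (ptN t.1.1) (pairN (oN t.1.2.1) (ordN Cond (t.1.2.2 : Ordinal.{0}))))
    (fun _ => ⊤)

theorem xN_inj {a b : T} (h : xN a = xN b) : a = b := by
  have key : ∀ a b : T, xN a = xN b → b ≤ a := by
    intro a b h
    have h1 : FMem (oN a) (xN a) ⊤ := by
      have := FMem.of_fn (y := xN a) (p := (⊤ : Cond)) (⟨(a, ⊤), Or.inl rfl⟩ :
        {t : T × Cond // t.1 = a ∨ t.2.c t.1 a}) le_rfl
      exact this
    rw [h] at h1
    obtain ⟨r, -, ⟨⟨c, q⟩, hj⟩, -, h2⟩ := h1 ⊤ le_rfl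
    have h3 : a = c := oN_inj' h2
    subst h3
    rcases hj with hj | hj
    · exact le_of_eq hj.symm
    · exact (q.lt _ _ hj).le
  exact le_antisymm (key b a h.symm) (key a b h)

/-- the operations -/
noncomputable def OS : ℕ → List (Obj Cond) → Obj Cond → Prop
  | 0, L, z => L = [] ∧ z = Sum.inl XN
  | 1, L, z => L = [] ∧ z = Sum.inl ΓN
  | 2, L, z => ∃ a, L = [Sum.inl (oN a)] ∧ z = Sum.inl (xN a)
  | 3, L, z => ∃ a, L = [Sum.inl (xN a)] ∧ z = Sum.inl (oN a)
  | 4, L, z => ∃ p, L = [Sum.inr p] ∧ z = Sum.inl (codeN p)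
  | _, _, _ => False

theorem OS_fun : ∀ (k : ℕ) (L : List (Obj Cond)) (y z : Obj Cond), OS k L y → OS k L z →
    y = z := by
  intro k L y z hy hz
  match k, hy, hz with
  | 0, hy, hz => rw [hy.2, hz.2]
  | 1, hy, hz => rw [hy.2, hz.2]
  | 2, hy, hz =>
    obtain ⟨a, rfl, rfl⟩ := hy
    obtain ⟨b, h, rfl⟩ := hz
    simp only [List.cons.injEq, Sum.inl.injEq, and_true] at h
    rw [oN_inj h]
  | 3, hy, hz =>
    obtain ⟨a, rfl, rfl⟩ := hy
    obtain ⟨b, h, rfl⟩ := hz
    simp only [List.cons.injEq, Sum.inl.injEq, and_true] at h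
    rw [xN_inj h]
  | 4, hy, hz =>
    obtain ⟨a, rfl, rfl⟩ := hy
    obtain ⟨b, h, rfl⟩ := hz
    simp only [List.cons.injEq, Sum.inr.injEq, and_true] at h
    rw [h]
  | n + 5, hy, hz => exact hy.elim

/-- the relations which do not mention other names -/
def R0 (p : Cond) (L : List (Obj Cond)) : Prop := ∃ a y, L = [y, Sum.inl (oN a)] ∧ a < p.d

/-- `b ∈ c_a`, above `e` -/
def R1 (p : Cond) (L : List (Obj Cond)) : Prop :=
  ∃ b a e, L = [Sum.inl (oN b), Sum.inl (oN a), Sum.inl (oN e)] ∧ p.c a b ∧ e < b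

/-- `b ∈ c_a` -/
def R2 (p : Cond) (L : List (Obj Cond)) : Prop :=
  ∃ b a, L = [Sum.inl (oN b), Sum.inl (oN a)] ∧ p.c a b

/-- `p` decides a set of natural numbers -/
def R3 (p : Cond) (L : List (Obj Cond)) : Prop :=
  ∃ r s, L = [Sum.inl (rN r), Sum.inl s] ∧ ∀ n : ℕ,
    (n ∈ r → FMem (ordN Cond (n : Ordinal.{0})) s p) ∧
    (n ∉ r → ∀ q ≤ p, ¬ FMem (ordN Cond (n : Ordinal.{0})) s q)

/-- `f` is not a function -/
def R4 (p : Cond) (L : List (Obj Cond)) : Prop :=
  ∃ b b' r f, L = [Sum.inl (pairN (oN b) (pairN (oN b') (rN r))), Sum.inl f] ∧ b ≠ b' ∧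
    FMem (pairN (rN r) (xN b)) f p ∧ FMem (pairN (rN r) (xN b')) f p

/-- `e` bounds the values of `f` -/
def R5 (p : Cond) (L : List (Obj Cond)) : Prop :=
  ∃ e f, L = [Sum.inl (oN e), Sum.inl f] ∧
    ∀ q ≤ p, ∀ r b, e ≤ b → ¬ FMem (pairN (rN r) (xN b)) f q

/-- the genericity and closure conditions used for the space -/
structure GS (X : Set (Obj Cond)) (G : Set Cond) : Prop where
  b : Basic X G
  c : Clos X
  o : ∀ k L y, (∀ a ∈ L, a ∈ X) → OS k L y → y ∈ X
  r0 : GenR X G R0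
  r1 : GenR X G R1
  r2 : GenR X G R2
  r3 : GenR X G R3
  r4 : GenR X G R4
  r5 : GenR X G R5

section

variable {X : Set (Obj Cond)} {G : Set Cond}

/-- `a` belongs to the model -/
def In (X : Set (Obj Cond)) (a : T) : Prop := (Sum.inl (oN a) : Obj Cond) ∈ X

/-- the point belongs to the model -/
def Inp (X : Set (Obj Cond)) (o : Option T) : Prop := (Sum.inl (ptN o) : Obj Cond) ∈ X

/-- the generic ladder system -/
def gc (G : Set Cond) (a b : T) : Prop := ∃ p ∈ G, p.c a b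

theorem GS.XX (h : GS X G) : (Sum.inl XN : Obj Cond) ∈ X := h.o 0 [] _ l0X ⟨rfl, rfl⟩

theorem GS.ΓX (h : GS X G) : (Sum.inl ΓN : Obj Cond) ∈ X := h.o 1 [] _ l0X ⟨rfl, rfl⟩

theorem GS.xX (h : GS X G) {a : T} (ha : In X a) : (Sum.inl (xN a) : Obj Cond) ∈ X :=
  h.o 2 _ _ (l1X ha) ⟨a, rfl, rfl⟩

theorem GS.oX (h : GS X G) {a : T} (ha : (Sum.inl (xN a) : Obj Cond) ∈ X) : In X a :=
  h.o 3 _ _ (l1X ha) ⟨a, rfl, rfl⟩

theorem GS.cX (h : GS X G) {p : Cond} (hp : (Sum.inr p : Obj Cond) ∈ X) :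
    (Sum.inl (codeN p) : Obj Cond) ∈ X := h.o 4 _ _ (l1X hp) ⟨p, rfl, rfl⟩

theorem GS.inp_some (h : GS X G) {a : T} : Inp X (some a) ↔ In X a := ⟨h.oX, h.xX⟩

theorem GS.inp_none (h : GS X G) : Inp X none := h.c.zero

theorem GS.d (h : GS X G) {a : T} (ha : In X a) : ∃ p ∈ G, a < p.d := by
  obtain ⟨p0, hp0⟩ := h.b.filt.ne
  obtain ⟨p, hp, y, -, hR⟩ := gen_yes h.b.filt h.r0 (l1X ha) hp0 (by
    intro q _
    obtain ⟨e, he⟩ := exists_gt (Max.max a q.d)
    refine ⟨q.ext' e ((le_max_right _ _).trans he.le),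
      q.ext'_le e ((le_max_right _ _).trans he.le), Sum.inr q, a, Sum.inr q, rfl, ?_⟩
    exact (le_max_left _ _).trans_lt he)
  obtain ⟨a', y', he, hlt⟩ := hR
  simp only [List.cons.injEq, Sum.inl.injEq, and_true] at he
  rw [← oN_inj he.2] at hlt
  exact ⟨p, hp, hlt⟩

/-- with a condition of the model -/
theorem GS.d' (h : GS X G) {a : T} (ha : In X a) :
    ∃ p ∈ G, a < p.d ∧ (Sum.inr p : Obj Cond) ∈ X := by
  obtain ⟨p, hp, h1⟩ := h.d ha
  obtain ⟨r, hr, h2, h3⟩ := h.b.filt.below hp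
  exact ⟨r, hr, h1.trans_le (Cond.le_d h2), h3⟩

theorem GS.gc_iff (h : GS X G) {p : Cond} (hp : p ∈ G) {a b : T} (ha : a < p.d) :
    gc G a b ↔ p.c a b := by
  constructor
  · rintro ⟨q, hq, hc⟩
    obtain ⟨r, hr, h1, h2⟩ := h.b.filt.compat hp hq
    exact (Cond.le_c h1 ha).1 (Cond.up h2 hc)
  · intro hc
    exact ⟨p, hp, hc⟩

theorem gc_lt {a b : T} (h : gc G a b) : b < a := by
  obtain ⟨p, -, h⟩ := h
  exact p.lt _ _ h

theorem GS.fin (h : GS X G) {a b : T} (hba : b < a) : {x | gc G a x ∧ x < b}.Finite := by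
  by_cases h1 : ∃ x, gc G a x
  · obtain ⟨x, p, hp, hx⟩ := h1
    refine (p.fin a b hba).subset ?_
    rintro y ⟨hy, hyb⟩
    exact ⟨(h.gc_iff hp (p.ltd _ _ hx)).1 hy, hyb⟩
  · have : {x | gc G a x ∧ x < b} = ∅ := by
      ext x
      simp only [mem_ofPred_eq, mem_empty_iff_false, iff_false]
      rintro ⟨hx, -⟩
      exact h1 ⟨x, hx⟩
    rw [this]
    exact finite_empty

theorem GS.iso (h : GS X G) {a b c : T} (h1 : gc G a b) (h2 : gc G b c) : False := by
  obtain ⟨p, hp, h1⟩ := h1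
  obtain ⟨q, hq, h2⟩ := h2
  obtain ⟨r, hr, h3, h4⟩ := h.b.filt.compat hp hq
  exact r.iso a b (Cond.up h3 h1) c (Cond.up h4 h2)

theorem GS.ad (h : GS X G) {a b : T} (hab : a ≠ b) : {x | gc G a x ∧ gc G b x}.Finite := by
  rcases lt_or_gt_of_ne hab with h1 | h1
  · refine (h.fin h1).subset ?_
    rintro x ⟨hx, hx2⟩
    exact ⟨hx2, gc_lt hx⟩
  · refine (h.fin h1).subset ?_
    rintro x ⟨hx, hx2⟩
    exact ⟨hx, gc_lt hx2⟩

/-- the value of the name of an ordinal -/
noncomputable def O (X : Set (Obj Cond)) (G : Set Cond) (a : T) : ZFSet.{0} := val X G (oN a)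

/-- the value of the name of a point -/
noncomputable def pt (X : Set (Obj Cond)) (G : Set Cond) (o : Option T) : ZFSet.{0} :=
  val X G (ptN o)

theorem GS.O_inj (h : GS X G) {a b : T} (ha : In X a) (hb : In X b) (he : O X G a = O X G b) :
    a = b := od_inj (val_ordN_inj h.b ha hb he)

theorem GS.mem_Γ (h : GS X G) {z : ZFSet.{0}} :
    z ∈ val X G ΓN ↔ ∃ a, In X a ∧ z = O X G a := by
  rw [ΓN, val_ordN_mem h.b.filt]
  constructor
  · rintro ⟨b, hb, h1, rfl⟩
    obtain ⟨a, rfl⟩ := exists_od hb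
    exact ⟨a, h1, rfl⟩
  · rintro ⟨a, ha, rfl⟩
    exact ⟨od a, od_lt a, ha, rfl⟩

theorem GS.mem_some (h : GS X G) {b : T} {z : ZFSet.{0}} :
    z ∈ pt X G (some b) ↔ ∃ a, In X a ∧ (a = b ∨ gc G a b) ∧ z = O X G a := by
  change z ∈ val X G (xN b) ↔ _
  rw [mem_val]
  constructor
  · rintro ⟨⟨⟨a, p⟩, hj⟩, h1, h2, rfl⟩
    refine ⟨a, h2, ?_, rfl⟩
    rcases hj with hj | hj
    · exact Or.inl hj
    · exact Or.inr ⟨p, h1, hj⟩
  · rintro ⟨a, ha, h1, rfl⟩
    rcases h1 with h1 | ⟨p, hp, h1⟩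
    · exact ⟨⟨(a, ⊤), Or.inl h1⟩, h.b.filt.top, ha, rfl⟩
    · exact ⟨⟨(a, p), Or.inr h1⟩, hp, ha, rfl⟩

theorem GS.O_mem_some (h : GS X G) {a b : T} (ha : In X a) :
    O X G a ∈ pt X G (some b) ↔ a = b ∨ gc G a b := by
  rw [h.mem_some]
  constructor
  · rintro ⟨c, hc, h1, h2⟩
    rwa [h.O_inj ha hc h2]
  · intro h1
    exact ⟨a, ha, h1, rfl⟩

theorem GS.pt_none (h : GS X G) : pt X G none = ∅ := val_ordN_zero h.b.filt

theorem GS.mem_X (h : GS X G) {z : ZFSet.{0}} :
    z ∈ val X G XN ↔ ∃ o, Inp X o ∧ z = pt X G o := by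
  rw [mem_val]
  constructor
  · rintro ⟨o, -, h1, rfl⟩
    exact ⟨o, h1, rfl⟩
  · rintro ⟨o, ho, rfl⟩
    exact ⟨o, h.b.filt.top, ho, rfl⟩

theorem GS.pt_inj (h : GS X G) {o o' : Option T} (ho : Inp X o) (ho' : Inp X o')
    (he : pt X G o = pt X G o') : o = o' := by
  rcases o with _ | a <;> rcases o' with _ | b
  · rfl
  · exfalso
    have h1 := (h.O_mem_some (b := b) (h.inp_some.1 ho')).2 (Or.inl rfl)
    rw [← he, h.pt_none] at h1
    exact ZFSet.notMem_empty _ h1
  · exfalso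
    have h1 := (h.O_mem_some (b := a) (h.inp_some.1 ho)).2 (Or.inl rfl)
    rw [he, h.pt_none] at h1
    exact ZFSet.notMem_empty _ h1
  · have ha := h.inp_some.1 ho
    have hb := h.inp_some.1 ho'
    have h1 := (h.O_mem_some (b := a) ha).2 (Or.inl rfl)
    have h2 := (h.O_mem_some (b := b) hb).2 (Or.inl rfl)
    rw [he, h.O_mem_some ha] at h1
    rw [← he, h.O_mem_some hb] at h2
    rcases h1 with rfl | h1
    · rfl
    · rcases h2 with rfl | h2
      · rfl
      · exact absurd (gc_lt h1) (not_lt.2 (gc_lt h2).le)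

/-- **The space is closed in the cube.** -/
theorem GS.closedCube (h : GS X G) : ClosedCube (Mod X G) (val X G ΓN) (val X G XN) := by
  refine ⟨⟨_, h.ΓX, rfl⟩, ⟨_, h.XX, rfl⟩, ?_, ?_⟩
  · intro x hx z hz
    obtain ⟨o, ho, rfl⟩ := h.mem_X.1 hx
    rcases o with _ | b
    · rw [h.pt_none] at hz
      exact absurd hz (ZFSet.notMem_empty _)
    · obtain ⟨a, ha, -, rfl⟩ := h.mem_some.1 hz
      exact h.mem_Γ.2 ⟨a, ha, rfl⟩
  · intro x hxN hxΓ hF
    -- a member which is an isolated point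
    have case1 : ∀ a, In X a → O X G a ∈ x → (∀ b, ¬ gc G a b) → x ∈ val X G XN := by
      intro a ha hax hiso
      have hx : x = pt X G (some a) := by
        have key : ∀ z ∈ val X G ΓN, (z ∈ x ↔ z ∈ pt X G (some a)) := by
          intro z hz
          obtain ⟨y, hy, h1⟩ := hF {O X G a, z} ⟨by simp, by
            rintro w (rfl | rfl)
            · exact h.mem_Γ.2 ⟨a, ha, rfl⟩
            · exact hz⟩
          have h2 := (h1 (O X G a) (Or.inl rfl)).1 hax
          obtain ⟨o, ho, rfl⟩ := h.mem_X.1 hy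
          rcases o with _ | b
          · rw [h.pt_none] at h2
            exact absurd h2 (ZFSet.notMem_empty _)
          · rcases (h.O_mem_some ha).1 h2 with rfl | h3
            · exact h1 z (Or.inr rfl)
            · exact absurd h3 (hiso b)
        ext z
        constructor
        · intro hz
          exact (key z (hxΓ hz)).1 hz
        · intro hz
          obtain ⟨b, hb, -, rfl⟩ := h.mem_some.1 hz
          exact (key _ (h.mem_Γ.2 ⟨b, hb, rfl⟩)).2 hz
      exact h.mem_X.2 ⟨some a, h.xX ha, hx⟩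
    by_cases h1 : ∃ a, In X a ∧ O X G a ∈ x ∧ ∀ b, ¬ gc G a b
    · obtain ⟨a, ha, h2, h3⟩ := h1
      exact case1 a ha h2 h3
    push Not at h1
    by_cases h2 : ∃ a, In X a ∧ O X G a ∈ x
    · obtain ⟨a, ha, hax⟩ := h2
      obtain ⟨c, hac⟩ := h1 a ha hax
      refine h.mem_X.2 ⟨some a, h.xX ha, ?_⟩
      ext z
      constructor
      · intro hz
        obtain ⟨b, hb, rfl⟩ := h.mem_Γ.1 (hxΓ hz)
        rw [h.O_mem_some hb]
        by_contra hne
        have hba : b ≠ a := fun h => hne (Or.inl h)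
        have hfin := (h.ad (G := G) hba.symm)
        obtain ⟨y, hy, h3⟩ := hF
          ({O X G a, O X G b} ∪ (O X G) '' {c | In X c ∧ gc G a c ∧ gc G b c}) (by
            refine ⟨(by simp : ({O X G a, O X G b} : Set ZFSet).Finite).union
              ((hfin.subset ?_).image _), ?_⟩
            · rintro c ⟨-, hc⟩
              exact hc
            · rintro w ((rfl | rfl) | ⟨c, hc, rfl⟩)
              · exact h.mem_Γ.2 ⟨a, ha, rfl⟩
              · exact h.mem_Γ.2 ⟨b, hb, rfl⟩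
              · exact h.mem_Γ.2 ⟨c, hc.1, rfl⟩)
        have h4 := (h3 (O X G a) (Or.inl (Or.inl rfl))).1 hax
        have h5 := (h3 (O X G b) (Or.inl (Or.inr rfl))).1 hz
        obtain ⟨o, ho, rfl⟩ := h.mem_X.1 hy
        rcases o with _ | e
        · rw [h.pt_none] at h4
          exact absurd h4 (ZFSet.notMem_empty _)
        have he := h.inp_some.1 ho
        rw [h.O_mem_some ha] at h4
        rw [h.O_mem_some hb] at h5
        obtain ⟨d, hbd⟩ := h1 b hb hz
        rcases h4 with rfl | h4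
        · rcases h5 with rfl | h5
          · exact hba rfl
          · exact h.iso h5 hac
        · rcases h5 with rfl | h5
          · exact h.iso h4 hbd
          · have h6 : O X G e ∈ x :=
              (h3 _ (Or.inr ⟨e, ⟨he, h4, h5⟩, rfl⟩)).2 ((h.O_mem_some he).2 (Or.inl rfl))
            obtain ⟨d', hd'⟩ := h1 e he h6
            exact h.iso h4 hd'
      · intro hz
        obtain ⟨b, hb, h3, rfl⟩ := h.mem_some.1 hz
        rcases h3 with rfl | h3
        · exact hax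
        · exact (h.iso h3 hac).elim
    · refine h.mem_X.2 ⟨none, h.inp_none, ?_⟩
      rw [h.pt_none, ZFSet.eq_empty]
      intro z hz
      obtain ⟨a, ha, rfl⟩ := h.mem_Γ.1 (hxΓ hz)
      exact h2 ⟨a, ha, hz⟩

end

end Pool.Agent.Helper96.LS
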