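import Pool.Agent.Helper96.LS.Small

/-!
# The space is not Eberlein compact in the extension
-/

open Cardinal Ordinal Set Pool.Agent.Helper96.Fc Pool.Agent.Helper23.PI

set_option linter.unusedSectionVars false

namespace Pool.Agent.Helper96.LS

/-- name of a triple -/
noncomputable def tN (x d : Nm Cond) (n : ℕ) : Nm Cond :=
  pairN x (pairN d (ordN Cond (n : Ordinal.{0})))

/-- kinds of separation: two rational numbers and a side -/
abbrev Kd : Type := (ℕ × ℕ) × Bool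

/-- `p` forces that the coordinate `d` of the function coded by `g` separates `x` from the point at
infinity, in the sense of `k` -/
def Sep : Kd → Nm Cond → Nm Cond → Nm Cond → Cond → Prop
  | ((a, b), true), x, d, g, p => rat a < rat b ∧ FMem (tN x d b) g p ∧
      ∀ q ≤ p, ¬ FMem (tN (ptN none) d a) g q
  | ((a, b), false), x, d, g, p => rat a < rat b ∧ FMem (tN (ptN none) d b) g p ∧
      ∀ q ≤ p, ¬ FMem (tN x d a) g q

theorem Sep.mono {k : Kd} {x d g : Nm Cond} {p q : Cond} (h : Sep k x d g p) (hq : q ≤ p) :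
    Sep k x d g q := by
  rcases k with ⟨⟨a, b⟩, _ | _⟩
  · exact ⟨h.1, h.2.1.mono hq, fun r hr => h.2.2 r (hr.trans hq)⟩
  · exact ⟨h.1, h.2.1.mono hq, fun r hr => h.2.2 r (hr.trans hq)⟩

/-- the isolated point `b` and the limit point `a` are separated from infinity by the coordinate
`d` -/
def PhiD (g D : Nm Cond) (k : Kd) (b a : T) (d : Nm Cond) (p : Cond) : Prop :=
  (∃ x, p.c a x) ∧ FMem d D p ∧ Sep k (xN b) d g p ∧ Sep k (xN a) d g p

/-- the same for some coordinate -/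
def Phi (g D : Nm Cond) (k : Kd) (b a : T) (p : Cond) : Prop := ∃ d, PhiD g D k b a d p

theorem PhiD.mono {g D : Nm Cond} {k : Kd} {b a : T} {d : Nm Cond} {p q : Cond}
    (h : PhiD g D k b a d p) (hq : q ≤ p) : PhiD g D k b a d q := by
  obtain ⟨⟨x, h1⟩, h2, h3, h4⟩ := h
  exact ⟨⟨x, Cond.up hq h1⟩, h2.mono hq, h3.mono hq, h4.mono hq⟩

/-- `p` forces that the set of the limit points related to `b` is unbounded -/
def RA (p : Cond) (L : List (Obj Cond)) : Prop :=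
  ∃ b g D, L = [Sum.inl (oN b), Sum.inl g, Sum.inl D] ∧
    ∀ r ≤ p, ∀ e, ∃ k, ∃ s ≤ r, ∃ a, e ≤ a ∧ Phi g D k b a s

/-- `p` forces that the limit point `a` is not related to its ladder -/
def RB (p : Cond) (L : List (Obj Cond)) : Prop :=
  ∃ a g D, L = [Sum.inl (oN a), Sum.inl g, Sum.inl D] ∧
    (∃ x, p.c a x) ∧ ∀ r ≤ p, ∀ b, p.c a b → ∀ k, ¬ Phi g D k b a r

/-- `p` decides for every `k` whether the set is bounded -/
def RQ (p : Cond) (L : List (Obj Cond)) : Prop :=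
  ∃ y b g D, L = [y, Sum.inl (oN b), Sum.inl g, Sum.inl D] ∧
    ∀ k, (∃ e, ∀ r ≤ p, ∀ a, e ≤ a → ¬ Phi g D k b a r) ∨
      ∀ q ≤ p, ∀ e, ∃ s ≤ q, ∃ a, e ≤ a ∧ Phi g D k b a s

/-- a witness above `e` -/
def RW (k : Kd) (p : Cond) (L : List (Obj Cond)) : Prop :=
  ∃ a d e b g D, L = [Sum.inl (pairN (oN a) d), Sum.inl (oN e), Sum.inl (oN b), Sum.inl g,
    Sum.inl D] ∧ e < a ∧ PhiD g D k b a d p

/-- all relations -/
def RS : ℕ × Kd → Cond → List (Obj Cond) → Prop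
  | (0, _) => R0
  | (1, _) => R1
  | (2, _) => R2
  | (3, _) => R3
  | (4, _) => R4
  | (5, _) => R5
  | (6, _) => RA
  | (7, _) => RB
  | (8, _) => RQ
  | (_, k) => RW k

/-- the genericity conditions used for the failure -/
structure GT (X : Set (Obj Cond)) (G : Set Cond) : Prop where
  s : GS X G
  a : GenR X G RA
  b : GenR X G RB
  q : GenR X G RQ
  w : ∀ k, GenR X G (RW k)

theorem exists_GT : ∃ (X : Set (Obj Cond)) (G : Set Cond), X.Countable ∧ GT X G := by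
  obtain ⟨X, G, hX, -, hb, hc, hR, hO⟩ := exists_good RS (fun k => OS k.1)
    (fun k => OS_fun k.1) (⊤ : Cond)
  have k0 : Kd := ((0, 0), true)
  exact ⟨X, G, hX, ⟨⟨hb, hc, fun k => hO (k, k0), hR (0, k0), hR (1, k0), hR (2, k0), hR (3, k0), hR (4, k0),
    hR (5, k0)⟩, hR (6, k0), hR (7, k0), hR (8, k0), fun k => hR (9, k)⟩⟩

/-- deciding boundedness -/
theorem decide_bdd (g D : Nm Cond) (b : T) (p : Cond) : ∃ q ≤ p, ∀ k,
    (∃ e, ∀ r ≤ q, ∀ a, e ≤ a → ¬ Phi g D k b a r) ∨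
      ∀ q' ≤ q, ∀ e, ∃ s ≤ q', ∃ a, e ≤ a ∧ Phi g D k b a s := by
  refine dist (I := Kd) (mk_le_aleph0.trans aleph0_le_continuum)
    (fun k => {q | (∃ e, ∀ r ≤ q, ∀ a, e ≤ a → ¬ Phi g D k b a r) ∨
      ∀ q' ≤ q, ∀ e, ∃ s ≤ q', ∃ a, e ≤ a ∧ Phi g D k b a s}) ?_ ?_ p
  · rintro k q (⟨e, he⟩ | hq) r hr
    · exact Or.inl ⟨e, fun r' hr' => he r' (hr'.trans hr)⟩
    · exact Or.inr fun t ht => hq t (ht.trans hr)
  · intro k q
    by_cases h : ∃ r ≤ q, ∃ e, ∀ r' ≤ r, ∀ a, e ≤ a → ¬ Phi g D k b a r'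
    · obtain ⟨r, hr, e, h⟩ := h
      exact ⟨r, hr, Or.inl ⟨e, h⟩⟩
    · push Not at h
      exact ⟨q, le_rfl, Or.inr h⟩

variable {X : Set (Obj Cond)} {G : Set Cond}

theorem GS.ladder (h : GS X G) {a e : T} (ha : In X a) (he : In X e) (hea : e < a) {x : T}
    (hax : gc G a x) : ∃ b, In X b ∧ gc G a b ∧ e < b := by
  obtain ⟨p, hp, hx⟩ := hax
  obtain ⟨q, hq, y, hy, hR⟩ := gen_yes h.b.filt h.r1 (l := [Sum.inl (oN a), Sum.inl (oN e)])
    (lcX ha (l1X he)) hp (by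
      intro q hq
      obtain ⟨z, hz, hez⟩ := q.cof a x (Cond.up hq hx) e hea
      exact ⟨q, le_rfl, Sum.inl (oN z), z, a, e, rfl, hz, hez⟩)
  obtain ⟨b, a', e', he', hc, hlt⟩ := hR
  simp only [List.cons.injEq, Sum.inl.injEq, and_true] at he'
  obtain ⟨rfl, h1, h2⟩ := he'
  have h3 := oN_inj h1
  have h4 := oN_inj h2
  subst h3 h4
  exact ⟨b, hy, ⟨q, hq, hc⟩, hlt⟩

theorem GS.ladder0 (h : GS X G) {a x : T} (ha : In X a) (hax : gc G a x) :
    ∃ b, In X b ∧ gc G a b := by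
  obtain ⟨p, hp, hx⟩ := hax
  obtain ⟨q, hq, y, hy, hR⟩ := gen_yes h.b.filt h.r2 (l := [Sum.inl (oN a)])
    (l1X ha) hp (by
      intro q hq
      exact ⟨q, le_rfl, Sum.inl (oN x), x, a, rfl, Cond.up hq hx⟩)
  obtain ⟨b, a', he', hc⟩ := hR
  simp only [List.cons.injEq, Sum.inl.injEq, and_true] at he'
  obtain ⟨rfl, h1⟩ := he'
  have h3 := oN_inj h1
  subst h3
  exact ⟨b, hy, q, hq, hc⟩

/-- the points of the ladder converge -/
theorem GS.conv (h : GS X G) {a x : T} (ha : In X a) (hax : gc G a x) {F : Set ZFSet.{0}}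
    (hF : FinSub (val X G ΓN) F) : ∃ b, In X b ∧ gc G a b ∧
      Agree F (pt X G (some a)) (pt X G (some b)) := by
  obtain ⟨b0, hb0, hab0⟩ := h.ladder0 ha hax
  -- the bad points
  let B : Set T := {b0} ∪ {b | In X b ∧ b < a ∧ O X G b ∈ F} ∪
    ⋃ c ∈ {c | In X c ∧ c ≠ a ∧ O X G c ∈ F}, {y | gc G a y ∧ gc G c y ∧ In X y}
  have hFc : {c | In X c ∧ O X G c ∈ F}.Finite := by
    refine Finite.of_finite_image (f := O X G) (hF.1.subset ?_) ?_
    · rintro _ ⟨c, hc, rfl⟩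
      exact hc.2
    · intro c hc c' hc' he
      exact h.O_inj hc.1 hc'.1 he
  have hB : B.Finite := by
    refine ((finite_singleton _).union ?_).union ?_
    · refine hFc.subset ?_
      rintro b ⟨h1, -, h2⟩
      exact ⟨h1, h2⟩
    · refine Finite.biUnion (hFc.subset ?_) ?_
      · rintro b ⟨h1, -, h2⟩
        exact ⟨h1, h2⟩
      · rintro c ⟨-, hca, -⟩
        refine (h.ad (G := G) hca.symm).subset ?_
        rintro y ⟨h1, h2, -⟩
        exact ⟨h1, h2⟩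
  obtain ⟨m, hm, hmax⟩ := hB.exists_maximal ⟨b0, Or.inl (Or.inl rfl)⟩
  have hmX : In X m ∧ m < a := by
    rcases hm with (rfl | hm) | hm
    · exact ⟨hb0, gc_lt hab0⟩
    · exact ⟨hm.1, hm.2.1⟩
    · obtain ⟨c, hc, h1, h2, h3⟩ := mem_iUnion₂.1 hm
      exact ⟨h3, gc_lt h1⟩
  obtain ⟨b, hb, hab, hmb⟩ := h.ladder ha hmX.1 hmX.2 hax
  have hbB : b ∉ B := fun hbB => by
    have := hmax hbB hmb.le
    exact absurd hmb (not_lt.2 this)
  refine ⟨b, hb, hab, ?_⟩
  intro z hz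
  obtain ⟨c, hc, rfl⟩ := h.mem_Γ.1 (hF.2 z hz)
  rw [h.O_mem_some hc, h.O_mem_some hc]
  constructor
  · rintro (rfl | h1)
    · exact Or.inr hab
    · exact (h.iso h1 hab).elim
  · rintro (rfl | h1)
    · exact absurd (Or.inl (Or.inr ⟨hc, gc_lt hab, hz⟩)) hbB
    · by_contra hne
      have hca : c ≠ a := fun hh => hne (Or.inl hh)
      exact hbB (Or.inr (mem_iUnion₂.2 ⟨c, ⟨hc, hca, hz⟩, hab, h1, hb⟩))

/-- the separation of `x` from infinity by `d`, in the extension -/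
def SepV (ev : ZFSet.{0} → ZFSet.{0} → ℝ) : Kd → ZFSet.{0} → ZFSet.{0} → Prop
  | ((a, b), true), x, d => rat a < rat b ∧ rat b < ev x d ∧ ¬ rat a < ev ∅ d
  | ((a, b), false), x, d => rat a < rat b ∧ rat b < ev ∅ d ∧ ¬ rat a < ev x d

theorem rat_surj (q : ℚ) : ∃ n, rat n = q := by
  refine ⟨@Encodable.encode ℚ Denumerable.toEncodable q, ?_⟩
  rw [rat, Denumerable.ofNat_encode]

section

variable {g D : Nm Cond} {ev : ZFSet.{0} → ZFSet.{0} → ℝ}

/-- the value of the name of a triple -/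
theorem GS.val_t (h : GS X G) {x d : Nm Cond} (hx : (Sum.inl x : Obj Cond) ∈ X)
    (hd : (Sum.inl d : Obj Cond) ∈ X) (n : ℕ) :
    (Sum.inl (tN x d n) : Obj Cond) ∈ X ∧
      val X G (tN x d n) = ZFSet.pair (val X G x) (ZFSet.pair (val X G d) (nat n)) := by
  have h1 := h.c.pair hd (h.nat_X n)
  refine ⟨h.c.pair hx h1, ?_⟩
  rw [tN, val_pairN h.b.filt h.c hx h1, val_pairN h.b.filt h.c hd (h.nat_X n), h.val_nat]

theorem GS.sep_true (h : GS X G) (hg : (Sum.inl g : Obj Cond) ∈ X)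
    (hcode : ∀ x ∈ val X G XN, ∀ d ∈ val X G D, ∀ n : ℕ,
      ZFSet.pair x (ZFSet.pair d (nat n)) ∈ val X G g ↔ rat n < ev x d)
    {k : Kd} {o : Option T} (ho : Inp X o) {d : Nm Cond} (hd : (Sum.inl d : Obj Cond) ∈ X)
    (hdD : val X G d ∈ val X G D) {p : Cond} (hp : p ∈ G) (hs : Sep k (ptN o) d g p) :
    SepV ev k (pt X G o) (val X G d) := by
  have hoX : pt X G o ∈ val X G XN := h.mem_X.2 ⟨o, ho, rfl⟩
  have hnX : pt X G none ∈ val X G XN := h.mem_X.2 ⟨none, h.inp_none, rfl⟩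
  have e1 : ∀ n, val X G (tN (ptN o) d n) ∈ val X G g ↔ rat n < ev (pt X G o) (val X G d) := by
    intro n
    rw [(h.val_t ho hd n).2]
    exact hcode _ hoX _ hdD n
  have e2 : ∀ n, val X G (tN (ptN none) d n) ∈ val X G g ↔ rat n < ev ∅ (val X G d) := by
    intro n
    rw [(h.val_t h.inp_none hd n).2, ← h.pt_none]
    exact hcode _ hnX _ hdD n
  rcases k with ⟨⟨a, b⟩, _ | _⟩
  · obtain ⟨h1, h2, h3⟩ := hs
    refine ⟨h1, (e2 b).1 ((h.b.mem_iff (h.val_t h.inp_none hd b).1 hg).2 ⟨p, hp, h2⟩), ?_⟩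
    rw [← e1 a]
    exact nmem' h.b (h.val_t ho hd a).1 hg hp h3
  · obtain ⟨h1, h2, h3⟩ := hs
    refine ⟨h1, (e1 b).1 ((h.b.mem_iff (h.val_t ho hd b).1 hg).2 ⟨p, hp, h2⟩), ?_⟩
    rw [← e2 a]
    exact nmem' h.b (h.val_t h.inp_none hd a).1 hg hp h3

theorem GS.sep_of (h : GS X G) (hg : (Sum.inl g : Obj Cond) ∈ X)
    (hcode : ∀ x ∈ val X G XN, ∀ d ∈ val X G D, ∀ n : ℕ,
      ZFSet.pair x (ZFSet.pair d (nat n)) ∈ val X G g ↔ rat n < ev x d)
    {k : Kd} {o : Option T} (ho : Inp X o) {d : Nm Cond} (hd : (Sum.inl d : Obj Cond) ∈ X)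
    (hdD : val X G d ∈ val X G D) (hs : SepV ev k (pt X G o) (val X G d)) :
    ∃ p ∈ G, Sep k (ptN o) d g p := by
  have hoX : pt X G o ∈ val X G XN := h.mem_X.2 ⟨o, ho, rfl⟩
  have hnX : pt X G none ∈ val X G XN := h.mem_X.2 ⟨none, h.inp_none, rfl⟩
  have e1 : ∀ n, val X G (tN (ptN o) d n) ∈ val X G g ↔ rat n < ev (pt X G o) (val X G d) := by
    intro n
    rw [(h.val_t ho hd n).2]
    exact hcode _ hoX _ hdD n
  have e2 : ∀ n, val X G (tN (ptN none) d n) ∈ val X G g ↔ rat n < ev ∅ (val X G d) := by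
    intro n
    rw [(h.val_t h.inp_none hd n).2, ← h.pt_none]
    exact hcode _ hnX _ hdD n
  rcases k with ⟨⟨a, b⟩, _ | _⟩
  · obtain ⟨h1, h2, h3⟩ := hs
    obtain ⟨p, hp, h4⟩ := (h.b.mem_iff (h.val_t h.inp_none hd b).1 hg).1 ((e2 b).2 h2)
    obtain ⟨q, hq, h5⟩ := nmem h.b (h.val_t ho hd a).1 hg (fun hh => h3 ((e1 a).1 hh))
    obtain ⟨r, hr, h6, h7⟩ := h.b.filt.compat hp hq
    exact ⟨r, hr, h1, h4.mono h6, fun s hs => h5 s (hs.trans h7)⟩
  · obtain ⟨h1, h2, h3⟩ := hs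
    obtain ⟨p, hp, h4⟩ := (h.b.mem_iff (h.val_t ho hd b).1 hg).1 ((e1 b).2 h2)
    obtain ⟨q, hq, h5⟩ := nmem h.b (h.val_t h.inp_none hd a).1 hg (fun hh => h3 ((e2 a).1 hh))
    obtain ⟨r, hr, h6, h7⟩ := h.b.filt.compat hp hq
    exact ⟨r, hr, h1, h4.mono h6, fun s hs => h5 s (hs.trans h7)⟩

/-- finitely many coordinates separate a given point -/
theorem sep_fin {K Δ : ZFSet.{0}} (hfin : ∀ x ∈ K, ∀ ε > 0, {d | d ∈ Δ ∧ ε ≤ |ev x d|}.Finite)
    (k : Kd) {x : ZFSet.{0}} (hx : x ∈ K) (h0 : ∅ ∈ K) : {d | d ∈ Δ ∧ SepV ev k x d}.Finite := by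
  rcases k with ⟨⟨a, b⟩, _ | _⟩
  · by_cases hab : rat a < rat b
    · rcases lt_or_ge 0 (rat b) with hb | hb
      · refine (hfin ∅ h0 (rat b) hb).subset ?_
        rintro d ⟨hd, -, h2, -⟩
        exact ⟨hd, h2.le.trans (le_abs_self _)⟩
      · have ha : rat a < 0 := hab.trans_le hb
        refine (hfin x hx (-rat a) (by linarith)).subset ?_
        rintro d ⟨hd, -, -, h3⟩
        refine ⟨hd, ?_⟩
        rw [not_lt] at h3
        have := neg_le_abs (ev x d)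
        linarith
    · convert finite_empty (α := ZFSet.{0})
      ext d
      simp only [mem_ofPred_eq, mem_empty_iff_false, iff_false]
      rintro ⟨-, h1, -⟩
      exact hab h1
  · by_cases hab : rat a < rat b
    · rcases lt_or_ge 0 (rat b) with hb | hb
      · refine (hfin x hx (rat b) hb).subset ?_
        rintro d ⟨hd, -, h2, -⟩
        exact ⟨hd, h2.le.trans (le_abs_self _)⟩
      · have ha : rat a < 0 := hab.trans_le hb
        refine (hfin ∅ h0 (-rat a) (by linarith)).subset ?_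
        rintro d ⟨hd, -, -, h3⟩
        refine ⟨hd, ?_⟩
        rw [not_lt] at h3
        have := neg_le_abs (ev ∅ d)
        linarith
    · convert finite_empty (α := ZFSet.{0})
      ext d
      simp only [mem_ofPred_eq, mem_empty_iff_false, iff_false]
      rintro ⟨-, h1, -⟩
      exact hab h1

/-- a coordinate separates finitely many limit points -/
theorem GS.lim_fin (h : GS X G) {Δ : ZFSet.{0}}
    (hcont : ∀ x ∈ val X G XN, ∀ d ∈ Δ, ∀ ε > 0, ∃ F, FinSub (val X G ΓN) F ∧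
      ∀ y ∈ val X G XN, Agree F x y → |ev y d - ev x d| < ε)
    (k : Kd) {d : ZFSet.{0}} (hd : d ∈ Δ) :
    {a | In X a ∧ (∃ x, gc G a x) ∧ SepV ev k (pt X G (some a)) d}.Finite := by
  have hnX : pt X G none ∈ val X G XN := h.mem_X.2 ⟨none, h.inp_none, rfl⟩
  obtain ⟨⟨a, b⟩, s⟩ := k
  by_cases hab : rat a < rat b
  · obtain ⟨F, hF, hF2⟩ := hcont _ hnX d hd (rat b - rat a) (by linarith)
    have hFc : {c | In X c ∧ O X G c ∈ F}.Finite := by
      refine Finite.of_finite_image (f := O X G) (hF.1.subset ?_) ?_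
      · rintro _ ⟨c, hc, rfl⟩
        exact hc.2
      · intro c hc c' hc' he
        exact h.O_inj hc.1 hc'.1 he
    refine hFc.subset ?_
    rintro c ⟨hc, ⟨x, hx⟩, hs⟩
    refine ⟨hc, ?_⟩
    by_contra hcF
    have h1 := hF2 (pt X G (some c)) (h.mem_X.2 ⟨some c, h.xX hc, rfl⟩) (by
      intro z hz
      rw [h.pt_none]
      constructor
      · intro hh
        exact absurd hh (ZFSet.notMem_empty _)
      · intro hh
        obtain ⟨e, he, h2, rfl⟩ := h.mem_some.1 hh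
        rcases h2 with rfl | h2
        · exact absurd hz hcF
        · exact (h.iso h2 hx).elim)
    rw [h.pt_none, abs_lt] at h1
    rcases s with _ | _
    · obtain ⟨-, h2, h3⟩ := hs
      rw [not_lt] at h3
      linarith [h1.1]
    · obtain ⟨-, h2, h3⟩ := hs
      rw [not_lt] at h3
      linarith [h1.2]
  · convert finite_empty (α := T)
    ext c
    simp only [mem_ofPred_eq, mem_empty_iff_false, iff_false]
    rintro ⟨-, -, hs⟩
    rcases s with _ | _
    · exact hab hs.1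
    · exact hab hs.1

end

/-- **The space is not Eberlein compact.** -/
theorem GT.not_eberlein (h : GT X G) : ¬ Eberlein (Mod X G) (val X G ΓN) (val X G XN) := by
  rintro ⟨_, ⟨D, hD, rfl⟩, ev, ⟨_, ⟨g, hg, rfl⟩, hcode⟩, -, hfin, hinj, hcont⟩
  have hS := h.s
  have hnX : pt X G none ∈ val X G XN := hS.mem_X.2 ⟨none, hS.inp_none, rfl⟩
  have h0X : (∅ : ZFSet.{0}) ∈ val X G XN := hS.pt_none ▸ hnX
  have hsX : ∀ {a}, In X a → pt X G (some a) ∈ val X G XN :=
    fun ha => hS.mem_X.2 ⟨_, hS.inp_some.2 ha, rfl⟩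
  -- (A)
  obtain ⟨pA, hpA, hA⟩ := gen_no h.a (l := [Sum.inl g, Sum.inl D]) (lcX hg (l1X hD)) (by
    rintro p hp y hy ⟨b, g', D', he, hRA⟩
    simp only [List.cons.injEq, Sum.inl.injEq, and_true] at he
    obtain ⟨rfl, rfl, rfl⟩ := he
    have hb : In X b := hy
    obtain ⟨q, hq, y', hy', hRQ⟩ := gen_yes hS.b.filt h.q
      (l := [Sum.inl (oN b), Sum.inl g, Sum.inl D]) (lcX hb (lcX hg (l1X hD))) hp (by
        intro q _
        obtain ⟨r, hr, hr2⟩ := decide_bdd g D b q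
        exact ⟨r, hr, Sum.inr q, Sum.inr q, b, g, D, rfl, hr2⟩)
    obtain ⟨y'', b', g', D', he, hdec⟩ := hRQ
    simp only [List.cons.injEq, Sum.inl.injEq, and_true] at he
    obtain ⟨-, he1, rfl, rfl⟩ := he
    have he2 := oN_inj he1
    subst he2
    obtain ⟨r, hr, hrp, hrq⟩ := hS.b.filt.compat hp hq
    by_cases hall : ∀ k, ∃ e, ∀ r ≤ q, ∀ a, e ≤ a → ¬ Phi g D k b a r
    · choose e he using hall
      obtain ⟨m, -, hm⟩ := bdd (B := Kd) (mk_le_aleph0.trans aleph0_le_continuum) e bt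
      obtain ⟨k, s, hs, a, hma, hPhi⟩ := hRA r hrp m
      exact he k s (hs.trans hrq) a ((hm k).le.trans hma) hPhi
    · push Not at hall
      obtain ⟨k, hk⟩ := hall
      have hk2 : ∀ q' ≤ q, ∀ e, ∃ s ≤ q', ∃ a, e ≤ a ∧ Phi g D k b a s := by
        rcases hdec k with ⟨e, h1⟩ | h1
        · obtain ⟨r', hr', a, ha, hP⟩ := hk e
          exact absurd hP (h1 r' hr' a ha)
        · exact h1
      -- finitely many limit points
      have hfin1 := sep_fin (ev := ev) hfin k (hsX hb) h0X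
      have hfin2 : (⋃ d ∈ {d | d ∈ val X G D ∧ SepV ev k (pt X G (some b)) d},
          {a | In X a ∧ (∃ x, gc G a x) ∧ SepV ev k (pt X G (some a)) d}).Finite :=
        Finite.biUnion hfin1 fun d hd => hS.lim_fin hcont k hd.1
      have hfin3 := hfin2.union (finite_singleton b)
      obtain ⟨m, hm, hmax⟩ := hfin3.exists_maximal ⟨b, Or.inr rfl⟩
      have hmX : In X m := by
        rcases hm with hm | rfl
        · obtain ⟨d, -, hm, -⟩ := mem_iUnion₂.1 hm
          exact hm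
        · exact hb
      obtain ⟨p', hp', y3, hy3, hRW⟩ := gen_yes hS.b.filt (h.w k)
        (l := [Sum.inl (oN m), Sum.inl (oN b), Sum.inl g, Sum.inl D])
        (lcX hmX (lcX hb (lcX hg (l1X hD)))) hq (by
          intro q' hq'
          obtain ⟨s, hs, a, ha, d, hPhi⟩ := hk2 q' hq' (sc m)
          exact ⟨s, hs, Sum.inl (pairN (oN a) d), a, d, m, b, g, D, rfl,
            (lt_sc m).trans_le ha, hPhi⟩)
      obtain ⟨a, d, m', b', g', D', he, hlt, hPhi⟩ := hRW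
      simp only [List.cons.injEq, Sum.inl.injEq, and_true] at he
      obtain ⟨rfl, he1, he2, rfl, rfl⟩ := he
      have he3 := oN_inj he1
      have he4 := oN_inj he2
      subst he3 he4
      have ha : In X a := hS.c.fst _ _ hy3
      have hd : (Sum.inl d : Obj Cond) ∈ X := hS.c.snd _ _ hy3
      obtain ⟨⟨x, hx⟩, hdD, hsb, hsa⟩ := hPhi
      have hdD' : val X G d ∈ val X G D := (hS.b.mem_iff hd hD).2 ⟨p', hp', hdD⟩
      have h1 := hS.sep_true hg hcode (hS.inp_some.2 hb) hd hdD' hp' hsb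
      have h2 := hS.sep_true hg hcode (hS.inp_some.2 ha) hd hdD' hp' hsa
      have h3 : a ∈ (⋃ d ∈ {d | d ∈ val X G D ∧ SepV ev k (pt X G (some b)) d},
          {a | In X a ∧ (∃ x, gc G a x) ∧ SepV ev k (pt X G (some a)) d}) ∪ {b} :=
        Or.inl (mem_iUnion₂.2 ⟨val X G d, ⟨hdD', h1⟩, ha, ⟨x, p', hp', hx⟩, h2⟩)
      exact absurd hlt (not_lt.2 (hmax h3 hlt.le)))
  -- (B)
  obtain ⟨pB, hpB, hB⟩ := gen_no h.b (l := [Sum.inl g, Sum.inl D]) (lcX hg (l1X hD)) (by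
    rintro p hp y hy ⟨a, g', D', he, ⟨x, hx⟩, hRB⟩
    simp only [List.cons.injEq, Sum.inl.injEq, and_true] at he
    obtain ⟨rfl, rfl, rfl⟩ := he
    have ha : In X a := hy
    have hne : pt X G (some a) ≠ ∅ := by
      intro hh
      rw [← hS.pt_none] at hh
      have := hS.pt_inj (hS.inp_some.2 ha) hS.inp_none hh
      cases this
    obtain ⟨δ, hδ, hδne⟩ := hinj _ (hsX ha) _ h0X hne
    obtain ⟨j, -, hdX, hdv⟩ := mem_val.1 hδ
    set d := D.fn j
    rw [← hdv] at hδ hδne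
    -- the key separation
    have key : ∃ k, SepV ev k (pt X G (some a)) (val X G d) ∧
        ∃ b, In X b ∧ gc G a b ∧ SepV ev k (pt X G (some b)) (val X G d) := by
      rcases lt_or_gt_of_ne hδne with hlt | hlt
      · -- the value at the point is below the value at infinity
        obtain ⟨q1, h1, h2⟩ := exists_rat_btwn hlt
        obtain ⟨q2, h3, h4⟩ := exists_rat_btwn h2
        obtain ⟨n1, hn1⟩ := rat_surj q1
        obtain ⟨n2, hn2⟩ := rat_surj q2
        obtain ⟨F, hF, hF2⟩ := hcont _ (hsX ha) _ hδ ((q1 : ℝ) - ev (pt X G (some a)) (val X G d))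
          (by linarith)
        obtain ⟨b, hb, hab, hag⟩ := hS.conv ha ⟨p, hp, hx⟩ hF
        have h5 := hF2 _ (hsX hb) hag
        rw [abs_lt] at h5
        refine ⟨((n1, n2), false), ⟨?_, ?_, ?_⟩, b, hb, hab, ?_, ?_, ?_⟩
        · rw [hn1, hn2]; exact h3
        · rw [hn2]; exact h4
        · rw [hn1]; exact not_lt.2 h1.le
        · rw [hn1, hn2]; exact h3
        · rw [hn2]; exact h4
        · rw [hn1, not_lt]
          linarith [h5.2]
      · obtain ⟨q1, h1, h2⟩ := exists_rat_btwn hlt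
        obtain ⟨q2, h3, h4⟩ := exists_rat_btwn h2
        obtain ⟨n1, hn1⟩ := rat_surj q1
        obtain ⟨n2, hn2⟩ := rat_surj q2
        obtain ⟨F, hF, hF2⟩ := hcont _ (hsX ha) _ hδ (ev (pt X G (some a)) (val X G d) - (q2 : ℝ))
          (by linarith)
        obtain ⟨b, hb, hab, hag⟩ := hS.conv ha ⟨p, hp, hx⟩ hF
        have h5 := hF2 _ (hsX hb) hag
        rw [abs_lt] at h5
        refine ⟨((n1, n2), true), ⟨?_, ?_, ?_⟩, b, hb, hab, ?_, ?_, ?_⟩
        · rw [hn1, hn2]; exact h3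
        · rw [hn2]; exact h4
        · rw [hn1]; exact not_lt.2 h1.le
        · rw [hn1, hn2]; exact h3
        · rw [hn2]
          linarith [h5.1]
        · rw [hn1]; exact not_lt.2 h1.le
    obtain ⟨k, hka, b, hb, ⟨p4, hp4, hab⟩, hkb⟩ := key
    obtain ⟨p1, hp1, h1⟩ := hS.sep_of hg hcode (hS.inp_some.2 hb) hdX hδ hkb
    obtain ⟨p2, hp2, h2⟩ := hS.sep_of hg hcode (hS.inp_some.2 ha) hdX hδ hka
    obtain ⟨p3, hp3, h3⟩ := (hS.b.mem_iff hdX hD).1 hδ
    obtain ⟨r1, hr1, a1, a2⟩ := hS.b.filt.compat hp1 hp2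
    obtain ⟨r2, hr2, a3, a4⟩ := hS.b.filt.compat hp3 hp4
    obtain ⟨r3, hr3, a5, a6⟩ := hS.b.filt.compat hr1 hr2
    obtain ⟨r, hr, a7, a8⟩ := hS.b.filt.compat hp hr3
    have hrab : r.c a b := Cond.up (a8.trans (a6.trans a4)) hab
    have hpab : p.c a b := (Cond.le_c a7 (p.ltd _ _ hx)).1 hrab
    exact hRB r a7 b hpab k ⟨d, ⟨b, hrab⟩, h3.mono (a8.trans (a6.trans a3)),
      h1.mono (a8.trans (a5.trans a1)), h2.mono (a8.trans (a5.trans a2))⟩)
  obtain ⟨p, hp, hpA', hpB'⟩ := hS.b.filt.compat hpA hpB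
  refine core (Phi g D) p ?_ ?_
  · intro q hq b
    have h1 := hA q (hq.trans hpA') (Sum.inl (oN b))
    by_contra h2
    push Not at h2
    exact h1 ⟨b, g, D, rfl, h2⟩
  · intro q hq a x hx
    have h1 := hB q (hq.trans hpB') (Sum.inl (oN a))
    by_contra h2
    push Not at h2
    exact h1 ⟨a, g, D, rfl, ⟨x, hx⟩, h2⟩

/-- **The countable transitive model.** -/
theorem main : ∃ N : Set ZFSet.{0}, N.Countable ∧ IsZFC N ∧ ∃ Γ X : ZFSet.{0},
    ClosedCube N Γ X ∧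
    (∀ A K : ZFSet.{0}, A ⊆ X → SizeLeC N A → IsClosure Γ X A K → Eberlein N Γ K) ∧
    ¬ Eberlein N Γ X := by
  obtain ⟨X, G, hX, h⟩ := exists_GT
  exact ⟨Mod X G, Mod_countable hX, Mod.isZFC h.s.b h.s.c, _, _, h.s.closedCube,
    fun A K h1 h2 h3 => h.s.small h1 h2 h3, h.not_eberlein⟩

end Pool.Agent.Helper96.LS
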