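import Pool.Agent.Helper96.Fc.Root

/-!
# A forcing notion adding a ladder system on `𝔠⁺`

Conditions are ladder systems on bounded sets of points of `𝔠⁺` which can be made disjoint by
removing finite parts. The order is end-extension.
-/

open Cardinal Ordinal Set Pool.Agent.Helper96.Fc

set_option linter.unusedSectionVars false

namespace Pool.Agent.Helper96.LS

/-- `𝔠⁺` -/
noncomputable def kap : Cardinal.{0} := Order.succ continuum

theorem kap_reg : kap.IsRegular := isRegular_succ aleph0_le_continuum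

/-- the points -/
abbrev T : Type := kap.ord.ToType

theorem bdd {B : Type} (hB : #B ≤ continuum) (f : B → T) (a : T) : ∃ k, a < k ∧ ∀ b, f b < k :=
  exists_bound2 kap_reg (Order.lt_succ_of_le hB) f a

instance : NoMaxOrder T := ⟨fun a => exists_gt' kap_reg a⟩

instance : Nonempty T := by
  rw [nonempty_toType_iff]
  exact (kap_reg.ord_pos).ne'

/-- least elements -/
theorem exists_least (p : T → Prop) (h : ∃ a, p a) : ∃ a, p a ∧ ∀ b, p b → a ≤ b := by
  obtain ⟨a, ha, h2⟩ := WellFounded.has_min (wellFounded_lt (α := T)) {a | p a} h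
  exact ⟨a, ha, fun b hb => not_lt.1 (h2 b hb)⟩

/-- the least point -/
noncomputable def bt : T := (exists_least (fun _ => True) ⟨Classical.arbitrary T, trivial⟩).choose

theorem bt_le (a : T) : bt ≤ a :=
  (exists_least (fun _ => True) ⟨Classical.arbitrary T, trivial⟩).choose_spec.2 a trivial

/-- successors -/
noncomputable def sc (a : T) : T := (exists_least (fun b => a < b) (exists_gt a)).choose

theorem lt_sc (a : T) : a < sc a := (exists_least (fun b => a < b) (exists_gt a)).choose_spec.1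

theorem sc_le {a b : T} (h : a < b) : sc a ≤ b :=
  (exists_least (fun b => a < b) (exists_gt a)).choose_spec.2 b h

theorem lt_sc_iff {a b : T} : b < sc a ↔ b ≤ a := by
  constructor
  · intro h
    by_contra h2
    exact absurd (sc_le (not_le.1 h2)) (not_le.2 h)
  · intro h
    exact h.trans_lt (lt_sc a)

/-- Conditions. `c a b` means that `b` belongs to the ladder of `a`. -/
@[ext] structure Cond where
  /-- the domain consists of the points below `d` -/
  d : T
  /-- the ladders -/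
  c : T → T → Prop
  lt : ∀ a b, c a b → b < a
  ltd : ∀ a b, c a b → a < d
  fin : ∀ a b, b < a → {x | c a x ∧ x < b}.Finite
  cof : ∀ a x, c a x → ∀ b < a, ∃ y, c a y ∧ b < y
  iso : ∀ a b, c a b → ∀ x, ¬ c b x
  dis : ∃ g : T → T, (∀ a x, c a x → g a < a) ∧
    ∀ a a' x, c a x → c a' x → g a ≤ x → g a' ≤ x → a = a'

instance : PartialOrder Cond where
  le p q := q.d ≤ p.d ∧ ∀ a < q.d, ∀ b, p.c a b ↔ q.c a b
  le_refl p := ⟨le_rfl, fun _ _ _ => Iff.rfl⟩
  le_trans p q r h1 h2 := ⟨h2.1.trans h1.1, fun a ha b =>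
    (h1.2 a (ha.trans_le h2.1) b).trans (h2.2 a ha b)⟩
  le_antisymm p q h1 h2 := by
    have hd : p.d = q.d := le_antisymm h2.1 h1.1
    apply Cond.ext hd
    funext a b
    apply propext
    constructor
    · intro h
      exact (h1.2 a (hd ▸ p.ltd a b h) b).1 h
    · intro h
      exact (h1.2 a (q.ltd a b h) b).2 h

theorem Cond.le_d {p q : Cond} (h : p ≤ q) : q.d ≤ p.d := h.1

theorem Cond.le_c {p q : Cond} (h : p ≤ q) {a b : T} (ha : a < q.d) : p.c a b ↔ q.c a b :=
  h.2 a ha b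

theorem Cond.up {p q : Cond} (h : p ≤ q) {a b : T} (hab : q.c a b) : p.c a b :=
  (h.2 a (q.ltd a b hab) b).2 hab

noncomputable instance : OrderTop Cond where
  top := ⟨bt, fun _ _ => False, fun _ _ h => h.elim, fun _ _ h => h.elim,
    fun _ _ _ => by simp, fun _ _ h => h.elim, fun _ _ h => h.elim,
    ⟨fun _ => bt, fun _ _ h => h.elim, fun _ _ _ h => h.elim⟩⟩
  le_top p := ⟨bt_le _, fun a ha => absurd (bt_le a) (not_le.2 ha)⟩

/-- the same ladders with a larger domain -/
def Cond.ext' (p : Cond) (e : T) (h : p.d ≤ e) : Cond where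
  d := e
  c := p.c
  lt := p.lt
  ltd a b hab := (p.ltd a b hab).trans_le h
  fin := p.fin
  cof := p.cof
  iso := p.iso
  dis := p.dis

theorem Cond.ext'_le (p : Cond) (e : T) (h : p.d ≤ e) : p.ext' e h ≤ p :=
  ⟨h, fun _ _ _ => Iff.rfl⟩

/-! ## Distributivity -/

/-- Conditions with a closed set of points disjoint from the set of points with ladders. -/
structure RC where
  p : Cond
  C : Set T
  top : T
  mem : top ∈ C
  max : ∀ x ∈ C, x ≤ top
  hd : p.d = sc top
  hE : ∀ a ∈ C, ∀ b, ¬ p.c a b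
  cl : ∀ x y, y < x → x ≤ top → x ∉ C → ∃ b < x, ∀ z ∈ C, z < x → z ≤ b

/-- end-extension -/
def RC.le (r s : RC) : Prop := r.p ≤ s.p ∧ ∀ x ≤ s.top, x ∈ r.C ↔ x ∈ s.C

theorem RC.le_refl (r : RC) : r.le r := ⟨_root_.le_refl _, fun _ _ => Iff.rfl⟩

theorem RC.le_top {r s : RC} (h : r.le s) : s.top ≤ r.top :=
  r.max _ ((h.2 _ le_rfl).2 s.mem)

theorem RC.le_trans {r s t : RC} (h1 : r.le s) (h2 : s.le t) : r.le t :=
  ⟨h1.1.trans h2.1, fun x hx => (h1.2 x (hx.trans (RC.le_top h2))).trans (h2.2 x hx)⟩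

/-- **Lower bounds of chains.** -/
theorem RC.chain {K : Set RC} (hK : #K ≤ continuum) (hne : K.Nonempty)
    (hc : ∀ r ∈ K, ∀ s ∈ K, r.le s ∨ s.le r) : ∃ r : RC, ∀ s ∈ K, r.le s := by
  classical
  -- agreement
  have agp : ∀ r ∈ K, ∀ s ∈ K, ∀ a, a < r.p.d → a < s.p.d → ∀ b, (r.p.c a b ↔ s.p.c a b) := by
    intro r hr s hs a har has b
    rcases hc r hr s hs with h | h
    · exact Cond.le_c h.1 has
    · exact (Cond.le_c h.1 har).symm
  have agC : ∀ r ∈ K, ∀ s ∈ K, ∀ x, x ≤ r.top → x ∈ s.C → x ∈ r.C := by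
    intro r hr s hs x hx hxs
    rcases hc r hr s hs with h | h
    · exact (h.2 x (s.max x hxs)).2 hxs
    · exact (h.2 x hx).1 hxs
  obtain ⟨e, he, hmin⟩ := exists_least (fun b => ∀ r ∈ K, r.top ≤ b) (by
    obtain ⟨k, -, hk⟩ := bdd hK (fun r : K => r.1.top) bt
    exact ⟨k, fun r hr => (hk ⟨r, hr⟩).le⟩)
  have hex : ∀ x < e, ∃ r ∈ K, x < r.top := by
    intro x hx
    by_contra h
    push Not at h
    exact absurd (hmin x h) (not_le.2 hx)
  let c : T → T → Prop := fun a b => ∃ r ∈ K, r.p.c a b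
  have cag : ∀ r ∈ K, ∀ a < r.p.d, ∀ b, c a b ↔ r.p.c a b := by
    intro r hr a ha b
    constructor
    · rintro ⟨s, hs, h⟩
      exact (agp r hr s hs a ha (s.p.ltd a b h) b).2 h
    · intro h
      exact ⟨r, hr, h⟩
  let C : Set T := {x | (∃ r ∈ K, x ∈ r.C) ∨ x = e}
  have htopK : ∀ r ∈ K, ∀ a, a ≤ r.top → a < r.p.d := by
    intro r hr a ha
    rw [r.hd]
    exact lt_sc_iff.2 ha
  have hEC : ∀ a ∈ C, ∀ b, ¬ c a b := by
    rintro a ha b ⟨s, hs, hsc⟩
    have h1 := s.p.ltd a b hsc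
    rw [s.hd, lt_sc_iff] at h1
    rcases ha with ⟨r, hr, har⟩ | rfl
    · have := agC s hs r hr a h1 har
      exact s.hE a this b hsc
    · have : a = s.top := le_antisymm h1 (he s hs)
      rw [this] at hsc
      exact s.hE _ s.mem b hsc
  have hCmax : ∀ x ∈ C, x ≤ e := by
    rintro x (⟨r, hr, hx⟩ | rfl)
    · exact (r.max x hx).trans (he r hr)
    · exact le_rfl
  have hcl : ∀ x y, y < x → x ≤ e → x ∉ C → ∃ b < x, ∀ z ∈ C, z < x → z ≤ b := by
    intro x y hyx hxe hxC
    have hxe' : x < e := lt_of_le_of_ne hxe (fun h => hxC (Or.inr h))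
    obtain ⟨r, hr, hxr⟩ := hex x hxe'
    obtain ⟨b, hb, hb2⟩ := r.cl x y hyx hxr.le (fun h => hxC (Or.inl ⟨r, hr, h⟩))
    refine ⟨b, hb, ?_⟩
    rintro z (⟨s, hs, hz⟩ | rfl) hzx
    · exact hb2 z (agC r hr s hs z (hzx.trans hxr).le hz) hzx
    · exact absurd hzx (not_lt.2 hxe)
  -- the disjointing function
  have hnx : ∀ a : T, a < e → ∃ z, (a < z ∧ z ∈ C) ∧ ∀ b, (a < b ∧ b ∈ C) → z ≤ b :=
    fun a ha => exists_least (fun z => a < z ∧ z ∈ C) ⟨e, ha, Or.inr rfl⟩
  choose! nx hnx using hnx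
  have hnxK : ∀ a < e, ∃ r ∈ K, nx a ∈ r.C := by
    intro a ha
    obtain ⟨r, hr, har⟩ := hex a ha
    rcases (hnx a ha).1.2 with h | h
    · exact h
    · have h1 := (hnx a ha).2 r.top ⟨har, Or.inl ⟨r, hr, r.mem⟩⟩
      have h2 : r.top = e := le_antisymm (he r hr) (h ▸ h1)
      refine ⟨r, hr, ?_⟩
      rw [h, ← h2]
      exact r.mem
  have hpz : ∀ z : T, ∃ r : RC, (∃ s ∈ K, z ∈ s.C) → r ∈ K ∧ z ∈ r.C := by
    intro z
    by_cases h : ∃ s ∈ K, z ∈ s.C
    · obtain ⟨s, hs, h⟩ := h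
      exact ⟨s, fun _ => ⟨hs, h⟩⟩
    · exact ⟨hne.some, fun h' => absurd h' h⟩
  choose pz hpz using hpz
  have hg := fun r : RC => r.p.dis
  choose g hg1 hg2 using hg
  have hb : ∀ a : T, ∃ b, (∃ x, c a x) → b < a ∧ ∀ z ∈ C, z < a → z ≤ b := by
    intro a
    by_cases h : ∃ x, c a x
    · obtain ⟨x, r, hr, hx⟩ := h
      have h1 := r.p.ltd a x hx
      rw [r.hd, lt_sc_iff] at h1
      obtain ⟨b, hb⟩ := hcl a x (r.p.lt a x hx) (h1.trans (he r hr))
        (fun h => hEC a h x ⟨r, hr, hx⟩)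
      exact ⟨b, fun _ => hb⟩
    · exact ⟨bt, fun h' => absurd h' h⟩
  choose bb hbb using hb
  have hae : ∀ a x, c a x → a < e := by
    rintro a x ⟨r, hr, hx⟩
    have h1 := r.p.ltd a x hx
    rw [r.hd, lt_sc_iff] at h1
    refine lt_of_le_of_ne (h1.trans (he r hr)) ?_
    intro h
    exact hEC a (Or.inr h) x ⟨r, hr, hx⟩
  have hblk : ∀ a x, c a x → pz (nx a) ∈ K ∧ (pz (nx a)).p.c a x := by
    intro a x hax
    have h1 := hae a x hax
    have h2 := hpz (nx a) (hnxK a h1)
    refine ⟨h2.1, ?_⟩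
    have h3 : a < (pz (nx a)).p.d :=
      htopK _ h2.1 a (((hnx a h1).1.1).le.trans ((pz (nx a)).max _ h2.2))
    exact (cag _ h2.1 a h3 x).1 hax
  let q : Cond :=
    { d := sc e
      c := c
      lt := by
        rintro a b ⟨r, hr, h⟩
        exact r.p.lt a b h
      ltd := by
        intro a b h
        exact lt_sc_iff.2 (hae a b h).le
      fin := by
        intro a b hba
        by_cases h : ∃ x, c a x
        · obtain ⟨x, r, hr, hx⟩ := h
          refine (r.p.fin a b hba).subset ?_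
          rintro y ⟨hy, hyb⟩
          exact ⟨(cag r hr a (r.p.ltd a x hx) y).1 hy, hyb⟩
        · have : {x | c a x ∧ x < b} = ∅ := by
            ext x
            simp only [mem_ofPred_eq, mem_empty_iff_false, iff_false]
            rintro ⟨hx, -⟩
            exact h ⟨x, hx⟩
          rw [this]
          exact finite_empty
      cof := by
        rintro a x ⟨r, hr, h⟩ b hb
        obtain ⟨y, hy, hby⟩ := r.p.cof a x h b hb
        exact ⟨y, ⟨r, hr, hy⟩, hby⟩
      iso := by
        rintro a b ⟨r, hr, h⟩ x hx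
        have h1 := r.p.ltd a b h
        have h2 := (cag r hr b ((r.p.lt a b h).trans h1) x).1 hx
        exact r.p.iso a b h x h2
      dis := by
        refine ⟨fun a => Max.max (g (pz (nx a)) a) (bb a), ?_, ?_⟩
        · intro a x hax
          exact max_lt (hg1 _ a x (hblk a x hax).2) (hbb a ⟨x, hax⟩).1
        · have key : ∀ a a' x, c a x → c a' x → bb a' ≤ x → ¬ nx a < nx a' := by
            intro a a' x h1 h2 h3 h4
            have h5 := hae a x h1
            have h6 := hae a' x h2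
            have h7 : nx a ≤ a' := by
              by_contra h8
              exact absurd ((hnx a' h6).2 (nx a) ⟨not_le.1 h8, (hnx a h5).1.2⟩) (not_le.2 h4)
            have h8 : nx a < a' := by
              refine lt_of_le_of_ne h7 ?_
              intro h9
              exact hEC a' (h9 ▸ (hnx a h5).1.2) x h2
            have h9 := (hbb a' ⟨x, h2⟩).2 (nx a) (hnx a h5).1.2 h8
            obtain ⟨r, hr, h10⟩ := h1
            have h11 := r.p.lt a x h10
            exact absurd ((h9.trans h3).trans_lt h11) (not_lt.2 (hnx a h5).1.1.le)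
          intro a a' x h1 h2 h3 h4
          have h5 : nx a = nx a' := by
            rcases lt_trichotomy (nx a) (nx a') with h | h | h
            · exact absurd h (key a a' x h1 h2 ((le_max_right _ _).trans h4))
            · exact h
            · exact absurd h (key a' a x h2 h1 ((le_max_right _ _).trans h3))
          have h6 := (hblk a x h1).2
          have h7 := (hblk a' x h2).2
          have h8 := (le_max_left _ _).trans h3
          have h9 := (le_max_left _ _).trans h4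
          rw [← h5] at h7 h9
          exact hg2 _ a a' x h6 h7 h8 h9 }
  refine ⟨⟨q, C, e, Or.inr rfl, hCmax, rfl, hEC, hcl⟩, ?_⟩
  intro s hs
  refine ⟨⟨?_, ?_⟩, ?_⟩
  · change s.p.d ≤ sc e
    rw [s.hd]
    exact sc_le (lt_sc_iff.2 (he s hs))
  · intro a ha b
    exact cag s hs a ha b
  · intro x hx
    constructor
    · rintro (⟨r, hr, h⟩ | h)
      · exact agC s hs r hr x hx h
      · change x = e at h
        have : x = s.top := le_antisymm hx (h ▸ he s hs)
        rw [this]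
        exact s.mem
    · intro h
      exact Or.inl ⟨s, hs, h⟩

/-- going into a dense set -/
theorem RC.into {D : Set Cond} (ho : ∀ p ∈ D, ∀ q ≤ p, q ∈ D) (hd : ∀ p, ∃ q ≤ p, q ∈ D)
    (r : RC) : ∃ s : RC, s.le r ∧ s.p ∈ D := by
  obtain ⟨q, hq, hqD⟩ := hd r.p
  have hrq : r.top < q.d := by
    refine lt_of_lt_of_le ?_ (Cond.le_d hq)
    rw [r.hd]
    exact lt_sc _
  refine ⟨⟨q.ext' (sc q.d) (lt_sc _).le, insert q.d r.C, q.d, mem_insert _ _, ?_, rfl, ?_, ?_⟩,
    ⟨(q.ext'_le (sc q.d) (lt_sc _).le).trans hq, ?_⟩,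
    ho q hqD _ (q.ext'_le (sc q.d) (lt_sc _).le)⟩
  · rintro x (rfl | hx)
    · exact le_rfl
    · exact (r.max x hx).trans hrq.le
  · rintro a (rfl | ha) b hab
    · exact lt_irrefl _ (q.ltd _ _ hab)
    · refine r.hE a ha b ((Cond.le_c hq ?_).1 hab)
      rw [r.hd]
      exact lt_sc_iff.2 (r.max a ha)
  · intro x y hyx hxq hxC
    have hx1 : x ≠ q.d := fun h => hxC (Or.inl h)
    have hx2 : x ∉ r.C := fun h => hxC (Or.inr h)
    rcases le_or_gt x r.top with h | h
    · obtain ⟨b, hb, hb2⟩ := r.cl x y hyx h hx2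
      refine ⟨b, hb, ?_⟩
      rintro z (rfl | hz) hzx
      · exact absurd hzx (not_lt.2 hxq)
      · exact hb2 z hz hzx
    · refine ⟨r.top, h, ?_⟩
      rintro z (rfl | hz) hzx
      · exact absurd hzx (not_lt.2 hxq)
      · exact r.max z hz
  · intro x hx
    constructor
    · rintro (rfl | h)
      · exact absurd hrq (not_lt.2 hx)
      · exact h
    · intro h
      exact Or.inr h

/-- the condition `p` with the closed set `{p.d}` -/
theorem RC.start (p : Cond) : ∃ r : RC, r.p ≤ p := by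
  refine ⟨⟨p.ext' (sc p.d) (lt_sc _).le, {p.d}, p.d, rfl, ?_, rfl, ?_, ?_⟩,
    p.ext'_le (sc p.d) (lt_sc _).le⟩
  · rintro x rfl
    exact le_rfl
  · rintro a rfl b hab
    exact lt_irrefl _ (p.ltd _ _ hab)
  · intro x y hyx hxp _
    refine ⟨y, hyx, ?_⟩
    rintro z rfl hzx
    exact absurd hzx (not_lt.2 hxp)

/-- **Distributivity**: fewer than `𝔠⁺` open dense sets have a dense intersection. -/
theorem dist {I : Type} (hI : #I ≤ continuum) (D : I → Set Cond)
    (ho : ∀ i, ∀ p ∈ D i, ∀ q ≤ p, q ∈ D i) (hd : ∀ i p, ∃ q ≤ p, q ∈ D i) (p : Cond) :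
    ∃ q ≤ p, ∀ i, q ∈ D i := by
  classical
  obtain ⟨r0, hr0⟩ := RC.start p
  let F : (i : I) → ((j : I) → WellOrderingRel j i → RC) → RC := fun i g =>
    if h : ∃ r : RC, r.p ∈ D i ∧ r.le r0 ∧ ∀ j hj, r.le (g j hj) then h.choose else r0
  let f : I → RC := (IsWellFounded.wf (r := (WellOrderingRel : I → I → Prop))).fix F
  have hf : ∀ i, f i = F i (fun j _ => f j) := fun i => WellFounded.fix_eq _ F i
  have key : ∀ i, (f i).p ∈ D i ∧ (f i).le r0 ∧ ∀ j, WellOrderingRel j i → (f i).le (f j) := by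
    intro i
    induction i using (IsWellFounded.wf (r := (WellOrderingRel : I → I → Prop))).induction with
    | _ i ih =>
      have hex : ∃ r : RC, r.p ∈ D i ∧ r.le r0 ∧ ∀ j, WellOrderingRel j i → r.le (f j) := by
        let K : Set RC := insert r0 (range (fun j : {j // WellOrderingRel j i} => f j.1))
        have hK : #K ≤ continuum := by
          refine mk_insert_le.trans ?_
          refine add_le_of_le aleph0_le_continuum (mk_range_le.trans ?_)
            (one_le_aleph0.trans aleph0_le_continuum)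
          exact (mk_subtype_le _).trans hI
        obtain ⟨r, hr⟩ := RC.chain hK (insert_nonempty _ _) (by
          rintro _ (rfl | ⟨j, rfl⟩) _ (rfl | ⟨k, rfl⟩)
          · exact Or.inl (RC.le_refl _)
          · exact Or.inr (ih k.1 k.2).2.1
          · exact Or.inl (ih j.1 j.2).2.1
          · rcases trichotomous_of (WellOrderingRel : I → I → Prop) j.1 k.1 with h | h | h
            · exact Or.inr ((ih k.1 k.2).2.2 j.1 h)
            · have : f j.1 = f k.1 := by rw [h]
              simp only [this]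
              exact Or.inl (RC.le_refl _)
            · exact Or.inl ((ih j.1 j.2).2.2 k.1 h))
        obtain ⟨s, hs, hsD⟩ := RC.into (ho i) (hd i) r
        exact ⟨s, hsD, RC.le_trans hs (hr r0 (mem_insert _ _)),
          fun j hj => RC.le_trans hs (hr _ (Or.inr ⟨⟨j, hj⟩, rfl⟩))⟩
      have h1 : f i = hex.choose := by
        rw [hf i]
        exact dif_pos hex
      rw [h1]
      exact hex.choose_spec
  let K : Set RC := insert r0 (range f)
  have hK : #K ≤ continuum := by
    refine mk_insert_le.trans ?_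
    exact add_le_of_le aleph0_le_continuum (mk_range_le.trans hI)
      (one_le_aleph0.trans aleph0_le_continuum)
  obtain ⟨r, hr⟩ := RC.chain hK (insert_nonempty _ _) (by
    rintro _ (rfl | ⟨j, rfl⟩) _ (rfl | ⟨k, rfl⟩)
    · exact Or.inl (RC.le_refl _)
    · exact Or.inr (key k).2.1
    · exact Or.inl (key j).2.1
    · rcases trichotomous_of (WellOrderingRel : I → I → Prop) j k with h | h | h
      · exact Or.inr ((key k).2.2 j h)
      · rw [h]
        exact Or.inl (RC.le_refl _)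
      · exact Or.inl ((key j).2.2 k h))
  refine ⟨r.p, (hr r0 (mem_insert _ _)).1.trans hr0, fun i => ?_⟩
  exact ho i _ (key i).1 _ (hr _ (Or.inr ⟨i, rfl⟩)).1

/-! ## Adding a point with a prescribed ladder -/

theorem anti {p : ℕ → Cond} (h1 : ∀ n, p (n + 1) ≤ p n) {m n : ℕ} (h : m ≤ n) : p n ≤ p m :=
  (antitone_nat_of_succ_le h1) h

theorem exists_add (p : ℕ → Cond) (h1 : ∀ n, p (n + 1) ≤ p n)
    (h3 : ∀ n, (p n).d < (p (n + 1)).d) (h4 : ∀ n x, ¬ (p (n + 1)).c (p n).d x) :
    ∃ (q : Cond) (a : T), (∀ n, q ≤ p n) ∧ (∀ n, (p n).d < a) ∧ a < q.d ∧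
      ∀ x, q.c a x ↔ ∃ n, x = (p n).d := by
  classical
  have hmono : StrictMono (fun n => (p n).d) := strictMono_nat_of_lt_succ h3
  obtain ⟨a, ha, hmin⟩ := exists_least (fun b => ∀ n, (p n).d < b) (by
    obtain ⟨k, -, hk⟩ := bdd (B := ℕ) (by rw [mk_nat]; exact aleph0_le_continuum)
      (fun n => (p n).d) bt
    exact ⟨k, hk⟩)
  have hbel : ∀ b < a, ∃ n, b < (p n).d := by
    intro b hb
    by_contra h
    push Not at h
    refine absurd (hmin b fun n => ?_) (not_le.2 hb)
    exact (h3 n).trans_le (h (n + 1))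
  have ag : ∀ m n x y, x < (p m).d → x < (p n).d → ((p m).c x y ↔ (p n).c x y) := by
    intro m n x y hm hn
    rcases le_total m n with h | h
    · exact (Cond.le_c (anti h1 h) hm).symm
    · exact Cond.le_c (anti h1 h) hn
  let c0 : T → T → Prop := fun x y => ∃ n, (p n).c x y
  have c0n : ∀ n x y, x < (p n).d → (c0 x y ↔ (p n).c x y) := by
    intro n x y hx
    constructor
    · rintro ⟨m, hm⟩
      exact (ag m n x y ((p m).ltd _ _ hm) hx).1 hm
    · intro h
      exact ⟨n, h⟩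
  have c0a : ∀ x y, c0 x y → x < a := by
    rintro x y ⟨n, hn⟩
    exact ((p n).ltd _ _ hn).trans (ha n)
  have c0lt : ∀ x y, c0 x y → y < x := by
    rintro x y ⟨n, hn⟩
    exact (p n).lt _ _ hn
  have c0d : ∀ n y, ¬ c0 (p n).d y := by
    intro n y h
    rw [c0n (n + 1) _ _ (h3 n)] at h
    exact h4 n y h
  let c : T → T → Prop := fun x y => c0 x y ∨ (x = a ∧ ∃ n, y = (p n).d)
  -- blocks
  have hblk : ∀ x, ∃ n, (∃ y, c0 x y) → x < (p n).d ∧ ∀ m, x < (p m).d → n ≤ m := by
    intro x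
    by_cases h : ∃ n, x < (p n).d
    · exact ⟨Nat.find h, fun _ => ⟨Nat.find_spec h, fun m hm => Nat.find_min' h hm⟩⟩
    · refine ⟨0, fun h' => ?_⟩
      obtain ⟨y, n, hn⟩ := h'
      exact absurd ⟨n, (p n).ltd _ _ hn⟩ h
  choose bl hbl using hblk
  have hb' : ∀ x, ∃ b, (∃ y, c0 x y) → b < x ∧ ∀ m, m < bl x → (p m).d < b := by
    intro x
    by_cases h : ∃ y, c0 x y
    · obtain ⟨y, hy⟩ := h
      rcases Nat.eq_zero_or_pos (bl x) with h0 | h0
      · refine ⟨y, fun _ => ⟨c0lt x y hy, fun m hm => ?_⟩⟩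
        rw [h0] at hm
        exact absurd hm (Nat.not_lt_zero m)
      · obtain ⟨k, hk⟩ : ∃ k, bl x = k + 1 := ⟨bl x - 1, by omega⟩
        have h5 : (p k).d ≤ x := by
          by_contra h6
          have := (hbl x ⟨y, hy⟩).2 k (not_le.1 h6)
          omega
        have h6 : (p k).d < x := by
          refine lt_of_le_of_ne h5 ?_
          intro h7
          exact c0d k y (h7 ▸ hy)
        have h7 := (c0n (bl x) x y (hbl x ⟨y, hy⟩).1).1 hy
        obtain ⟨z, hz, hkz⟩ := (p (bl x)).cof x y h7 _ h6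
        refine ⟨z, fun _ => ⟨(p (bl x)).lt _ _ hz, fun m hm => ?_⟩⟩
        exact (hmono.monotone (by omega : m ≤ k)).trans_lt hkz
    · exact ⟨bt, fun h' => absurd h' h⟩
  choose bb hbb using hb'
  have hg := fun n : ℕ => (p n).dis
  choose g hg1 hg2 using hg
  refine ⟨{ d := sc a, c := c, lt := ?_, ltd := ?_, fin := ?_, cof := ?_, iso := ?_, dis := ?_ },
    a, ?_, ha, lt_sc a, ?_⟩
  · rintro x y (h | ⟨rfl, n, rfl⟩)
    · exact c0lt x y h
    · exact ha n
  · rintro x y (h | ⟨rfl, n, rfl⟩)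
    · exact lt_sc_iff.2 (c0a x y h).le
    · exact lt_sc _
  · intro x b hbx
    rcases eq_or_ne x a with rfl | hxa
    · obtain ⟨n, hn⟩ := hbel b hbx
      refine ((finite_lt_nat n).image (fun m => (p m).d)).subset ?_
      rintro y ⟨h | ⟨-, m, rfl⟩, hyb⟩
      · exact absurd (c0a x y h) (lt_irrefl _)
      · exact ⟨m, hmono.lt_iff_lt.1 (hyb.trans hn), rfl⟩
    · by_cases h : ∃ y, c0 x y
      · obtain ⟨y, n, hn⟩ := h
        refine ((p n).fin x b hbx).subset ?_
        rintro z ⟨h | ⟨rfl, -⟩, hzb⟩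
        · exact ⟨(c0n n x z ((p n).ltd _ _ hn)).1 h, hzb⟩
        · exact absurd rfl hxa
      · have : {z | c x z ∧ z < b} = ∅ := by
          ext z
          simp only [mem_ofPred_eq, mem_empty_iff_false, iff_false]
          rintro ⟨h' | ⟨rfl, -⟩, -⟩
          · exact h ⟨z, h'⟩
          · exact hxa rfl
        rw [this]
        exact finite_empty
  · rintro x y (⟨n, hn⟩ | ⟨rfl, n, rfl⟩) b hb
    · obtain ⟨z, hz, hbz⟩ := (p n).cof x y hn b hb
      exact ⟨z, Or.inl ⟨n, hz⟩, hbz⟩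
    · obtain ⟨m, hm⟩ := hbel b hb
      exact ⟨(p m).d, Or.inr ⟨rfl, m, rfl⟩, hm⟩
  · rintro x y (⟨n, hn⟩ | ⟨rfl, n, rfl⟩) z hz
    · have h5 : y < a := ((p n).lt _ _ hn).trans (((p n).ltd _ _ hn).trans (ha n))
      rcases hz with hz | ⟨rfl, -⟩
      · have h6 := (c0n n y z (((p n).lt _ _ hn).trans ((p n).ltd _ _ hn))).1 hz
        exact (p n).iso x y hn z h6
      · exact lt_irrefl _ h5
    · rcases hz with hz | ⟨h5, -⟩
      · exact c0d n z hz
      · exact (ha n).ne h5
  · refine ⟨fun x => if x = a then (p 0).d else Max.max (g (bl x) x) (bb x), ?_, ?_⟩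
    · rintro x y (h | ⟨rfl, n, rfl⟩)
      · have hxa : x ≠ a := (c0a x y h).ne
        simp only [if_neg hxa]
        exact max_lt (hg1 _ x y ((c0n _ x y (hbl x ⟨y, h⟩).1).1 h)) (hbb x ⟨y, h⟩).1
      · simp only [if_true]
        exact ha 0
    · have k1 : ∀ x x' y, c0 x y → c0 x' y → bb x' ≤ y → ¬ bl x < bl x' := by
        intro x x' y h5 h6 h7 h8
        have h9 := (hbb x' ⟨y, h6⟩).2 (bl x) h8
        have h10 := (hbl x ⟨y, h5⟩).1
        exact absurd ((h10.trans h9).trans_le h7) (not_lt.2 (c0lt x y h5).le)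
      have k2 : ∀ x n, c0 x (p n).d → bb x ≤ (p n).d → False := by
        intro x n h5 h6
        have h7 := (hbl x ⟨_, h5⟩).2
        have h8 : bl x ≤ n + 1 ∨ n + 1 < bl x := by omega
        have h9 := c0lt x _ h5
        have h10 := (hbl x ⟨_, h5⟩).1
        have h11 : n < bl x := hmono.lt_iff_lt.1 (h9.trans h10)
        exact absurd ((hbb x ⟨_, h5⟩).2 n h11) (not_lt.2 h6)
      rintro x x' y (h5 | ⟨rfl, n, rfl⟩) (h6 | ⟨rfl, m, h6⟩) h7 h8
      · have hxa : x ≠ a := (c0a x y h5).ne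
        have hxa' : x' ≠ a := (c0a x' y h6).ne
        simp only [if_neg hxa] at h7
        simp only [if_neg hxa'] at h8
        have h9 : bl x = bl x' := by
          rcases lt_trichotomy (bl x) (bl x') with h | h | h
          · exact absurd h (k1 x x' y h5 h6 ((le_max_right _ _).trans h8))
          · exact h
          · exact absurd h (k1 x' x y h6 h5 ((le_max_right _ _).trans h7))
        have h10 := (c0n _ x y (hbl x ⟨y, h5⟩).1).1 h5
        have h11 := (c0n _ x' y (hbl x' ⟨y, h6⟩).1).1 h6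
        have h12 := (le_max_left _ _).trans h7
        have h13 := (le_max_left _ _).trans h8
        rw [← h9] at h11 h13
        exact hg2 _ x x' y h10 h11 h12 h13
      · exfalso
        subst h6
        have hxa : x ≠ x' := (c0a x _ h5).ne
        simp only [if_neg hxa] at h7
        exact k2 x m h5 ((le_max_right _ _).trans h7)
      · exfalso
        have hxa : x' ≠ x := (c0a x' _ h6).ne
        simp only [if_neg hxa] at h8
        exact k2 x' n h6 ((le_max_right _ _).trans h8)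
      · rfl
  · intro n
    refine ⟨?_, ?_⟩
    · exact ((ha n).le.trans (lt_sc a).le)
    · intro x hx y
      constructor
      · rintro (h | ⟨rfl, -⟩)
        · exact (c0n n x y hx).1 h
        · exact absurd (ha n) (not_lt.2 hx.le)
      · intro h
        exact Or.inl ⟨n, h⟩
  · intro x
    constructor
    · rintro (h | ⟨-, h⟩)
      · exact absurd (c0a a x h) (lt_irrefl _)
      · exact h
    · intro h
      exact Or.inr ⟨rfl, h⟩

/-- **The combinatorial core**: there is no decomposition. -/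
theorem core {K : Type} (Φ : K → T → T → Cond → Prop) (p : Cond)
    (hA : ∀ q ≤ p, ∀ b, ∃ r ≤ q, ∃ e, ∀ k, ∀ s ≤ r, ∀ a, e ≤ a → ¬ Φ k b a s)
    (hB : ∀ q ≤ p, ∀ a x, q.c a x → ∃ r ≤ q, ∃ b, q.c a b ∧ ∃ k, Φ k b a r) : False := by
  have step : ∀ q : {q : Cond // q ≤ p}, ∃ r : {q : Cond // q ≤ p}, r.1 ≤ q.1 ∧ q.1.d < r.1.d ∧
      (∀ x, ¬ r.1.c q.1.d x) ∧ ∃ e < r.1.d, ∀ k, ∀ s ≤ r.1, ∀ a, e ≤ a → ¬ Φ k q.1.d a s := by
    rintro ⟨q, hq⟩
    have h0 : q.ext' (sc q.d) (lt_sc _).le ≤ q := q.ext'_le _ _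
    obtain ⟨r, hr, e, he⟩ := hA _ (h0.trans hq) q.d
    have hd : sc q.d ≤ r.d := Cond.le_d hr
    obtain ⟨t, ht⟩ := exists_gt (Max.max e r.d)
    have hrt : r.d ≤ t := (le_max_right _ _).trans ht.le
    have h1 : r.ext' t hrt ≤ r := r.ext'_le _ _
    refine ⟨⟨r.ext' t hrt, h1.trans (hr.trans (h0.trans hq))⟩, h1.trans (hr.trans h0),
      (lt_sc _).trans_le (hd.trans hrt), ?_, e, (le_max_left _ _).trans_lt ht, ?_⟩
    · intro x hx
      have h2 : (q.ext' (sc q.d) (lt_sc _).le).c q.d x := (Cond.le_c hr (lt_sc _)).1 hx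
      exact lt_irrefl _ (q.ltd _ _ h2)
    · intro k s hs a ha
      exact he k s (hs.trans h1) a ha
  choose f hf1 hf2 hf3 e he1 he2 using step
  let s : ℕ → {q : Cond // q ≤ p} := fun n => Nat.rec ⟨p, le_rfl⟩ (fun _ q => f q) n
  have hs : ∀ n, s (n + 1) = f (s n) := fun n => rfl
  obtain ⟨q, a, hq, ha, haq, hqa⟩ := exists_add (fun n => (s n).1)
    (fun n => by rw [hs]; exact hf1 _) (fun n => by rw [hs]; exact hf2 _)
    (fun n x => by rw [hs]; exact hf3 _ x)
  obtain ⟨r, hr, b, hb, k, hΦ⟩ := hB q ((hq 0).trans le_rfl) a (s 0).1.d ((hqa _).2 ⟨0, rfl⟩)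
  obtain ⟨n, rfl⟩ := (hqa b).1 hb
  refine he2 (s n) k r (hr.trans ?_) a ?_ hΦ
  · have := hq (n + 1)
    rwa [hs] at this
  · have h1 := he1 (s n)
    rw [← hs] at h1
    exact (h1.trans (ha (n + 1))).le

end Pool.Agent.Helper96.LS
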