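import Pool.Agent.Helper96.LS.Names

/-!
# Closures of small sets are Eberlein compact in the extension
-/

open Cardinal Ordinal Set Pool.Agent.Helper96.Fc Pool.Agent.Helper23.PI

set_option linter.unusedSectionVars false

namespace Pool.Agent.Helper96.LS

variable {X : Set (Obj Cond)} {G : Set Cond}

/-- negation of membership is forced -/
theorem nmem (h : Basic X G) {x z : Nm Cond} (hx : (Sum.inl x : Obj Cond) ∈ X)
    (hz : (Sum.inl z : Obj Cond) ∈ X) (hn : val X G x ∉ val X G z) :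
    ∃ p ∈ G, ∀ q ≤ p, ¬ FMem x z q := by
  have h1 := h.truth (Fml.neg (Fml.mem 0 1)) ![x, z] (by
    intro i
    fin_cases i
    · exact hx
    · exact hz)
  exact h1.1 hn

theorem nmem' (h : Basic X G) {x z : Nm Cond} (hx : (Sum.inl x : Obj Cond) ∈ X)
    (hz : (Sum.inl z : Obj Cond) ∈ X) {p : Cond} (hp : p ∈ G) (hn : ∀ q ≤ p, ¬ FMem x z q) :
    val X G x ∉ val X G z := by
  intro hm
  obtain ⟨q, hq, h1⟩ := (h.mem_iff hx hz).1 hm
  obtain ⟨r, -, h2, h3⟩ := h.filt.compat hp hq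
  exact hn r h2 (h1.mono h3)

theorem GS.nat_X (h : GS X G) (n : ℕ) :
    (Sum.inl (ordN Cond (n : Ordinal.{0})) : Obj Cond) ∈ X := natX h.c n

theorem GS.val_nat (h : GS X G) (n : ℕ) : val X G (ordN Cond (n : Ordinal.{0})) = nat n :=
  Pool.Agent.Helper23.PI.val_nat h.b.filt h.c n

theorem nat_inj {m n : ℕ} (h : nat m = nat n) : m = n := by
  have h1 : (m : Ordinal.{0}) = n := Ordinal.toZFSet_injective h
  exact_mod_cast h1

/-- deciding countably many statements -/
theorem decide_nat (s : Nm Cond) (p : Cond) : ∃ q ≤ p, ∀ n : ℕ,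
    FMem (ordN Cond (n : Ordinal.{0})) s q ∨
      ∀ r ≤ q, ¬ FMem (ordN Cond (n : Ordinal.{0})) s r := by
  refine dist (I := ℕ) (by rw [mk_nat]; exact aleph0_le_continuum)
    (fun n => {q | FMem (ordN Cond (n : Ordinal.{0})) s q ∨
      ∀ r ≤ q, ¬ FMem (ordN Cond (n : Ordinal.{0})) s r}) ?_ ?_ p
  · rintro n q (hq | hq) r hr
    · exact Or.inl (hq.mono hr)
    · exact Or.inr fun t ht => hq t (ht.trans hr)
  · intro n q
    by_cases h : ∃ r ≤ q, FMem (ordN Cond (n : Ordinal.{0})) s r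
    · obtain ⟨r, hr, h⟩ := h
      exact ⟨r, hr, Or.inl h⟩
    · push Not at h
      exact ⟨q, le_rfl, Or.inr h⟩

/-- **No new reals.** -/
theorem GS.real (h : GS X G) {s : ZFSet.{0}} (hs : s ∈ Mod X G)
    (hsω : s ⊆ Ordinal.toZFSet Ordinal.omega0) :
    ∃ r : Set ℕ, (Sum.inl (rN r) : Obj Cond) ∈ X ∧ val X G (rN r) = s := by
  classical
  obtain ⟨s', hs', rfl⟩ := hs
  obtain ⟨p0, hp0⟩ := h.b.filt.ne
  obtain ⟨p, hp, y, hy, hR⟩ := gen_yes h.b.filt h.r3 (l1X hs') hp0 (by
    intro q _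
    obtain ⟨r, hr, hdec⟩ := decide_nat s' q
    refine ⟨r, hr, Sum.inl (rN {n | FMem (ordN Cond (n : Ordinal.{0})) s' r}),
      {n | FMem (ordN Cond (n : Ordinal.{0})) s' r}, s', rfl, ?_⟩
    intro n
    refine ⟨fun hn => hn, fun hn => ?_⟩
    rcases hdec n with h1 | h1
    · exact absurd h1 hn
    · exact h1)
  obtain ⟨r, s'', he, hR⟩ := hR
  simp only [List.cons.injEq, Sum.inl.injEq, and_true] at he
  obtain ⟨rfl, he⟩ := he
  subst he
  refine ⟨r, hy, ?_⟩
  ext z
  rw [mem_val]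
  constructor
  · rintro ⟨n, -, h1, rfl⟩
    exact (h.b.mem_iff (h.nat_X n.1) hs').2 ⟨p, hp, (hR n.1).1 n.2⟩
  · intro hz
    obtain ⟨o, ho, rfl⟩ := Ordinal.mem_toZFSet_iff.1 (hsω hz)
    obtain ⟨n, rfl⟩ := lt_omega0.1 ho
    by_cases hn : n ∈ r
    · exact ⟨⟨n, hn⟩, h.b.filt.top, h.nat_X n, h.val_nat n⟩
    · exfalso
      refine nmem' h.b (h.nat_X n) hs' hp ((hR n).2 hn) ?_
      rw [h.val_nat]
      exact hz

/-- the values at all reals are decided -/
theorem decide_real (f : Nm Cond) (p : Cond) : ∃ q ≤ p, ∀ r : Set ℕ,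
    (∃ b, FMem (pairN (rN r) (xN b)) f q) ∨ ∀ q' ≤ q, ∀ b, ¬ FMem (pairN (rN r) (xN b)) f q' := by
  refine dist (I := Set ℕ) (by rw [mk_set, mk_nat, two_power_aleph0])
    (fun r => {q | (∃ b, FMem (pairN (rN r) (xN b)) f q) ∨
      ∀ q' ≤ q, ∀ b, ¬ FMem (pairN (rN r) (xN b)) f q'}) ?_ ?_ p
  · rintro n q (⟨b, hq⟩ | hq) r hr
    · exact Or.inl ⟨b, hq.mono hr⟩
    · exact Or.inr fun t ht => hq t (ht.trans hr)
  · intro r q
    by_cases h : ∃ q' ≤ q, ∃ b, FMem (pairN (rN r) (xN b)) f q'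
    · obtain ⟨q', hr, h⟩ := h
      exact ⟨q', hr, Or.inl h⟩
    · push Not at h
      exact ⟨q, le_rfl, Or.inr h⟩

/-- **Small sets are bounded.** -/
theorem GS.bounded (h : GS X G) {A : ZFSet.{0}} (hA : SizeLeC (Mod X G) A) :
    ∃ e, In X e ∧ ∀ b, In X b → pt X G (some b) ∈ A → b < e := by
  classical
  obtain ⟨S, ⟨hSN, hS⟩, f, ⟨f', hf', rfl⟩, hfun, honto⟩ := hA
  -- a condition forcing that `f` is a function
  obtain ⟨p2, hp2, h2⟩ := gen_no h.r4 (l1X hf') (by
    rintro p hp y hy ⟨b, b', r, f, he, hbb, h1, h2⟩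
    simp only [List.cons.injEq, Sum.inl.injEq, and_true] at he
    obtain ⟨rfl, rfl⟩ := he
    have hbX : In X b := h.c.fst _ _ hy
    have hbX' : In X b' := h.c.fst _ _ (h.c.snd _ _ hy)
    have hrX : (Sum.inl (rN r) : Obj Cond) ∈ X := h.c.snd _ _ (h.c.snd _ _ hy)
    have e1 := (h.b.mem_iff (h.c.pair hrX (h.xX hbX)) hf').2 ⟨p, hp, h1⟩
    have e2 := (h.b.mem_iff (h.c.pair hrX (h.xX hbX')) hf').2 ⟨p, hp, h2⟩
    rw [val_pairN h.b.filt h.c hrX (h.xX hbX)] at e1
    rw [val_pairN h.b.filt h.c hrX (h.xX hbX')] at e2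
    have e3 : pt X G (some b) = pt X G (some b') := hfun _ _ _ e1 e2
    have e4 := h.pt_inj (h.inp_some.2 hbX) (h.inp_some.2 hbX') e3
    exact hbb (Option.some.inj e4))
  -- a condition forcing a bound
  obtain ⟨p, hp, y, hy, hR⟩ := gen_yes h.b.filt h.r5 (l1X hf') hp2 (by
    intro q hq
    obtain ⟨r, hr, hdec⟩ := decide_real f' q
    have hex : ∀ t : Set ℕ, ∃ b : T, (∃ b, FMem (pairN (rN t) (xN b)) f' r) →
        FMem (pairN (rN t) (xN b)) f' r := by
      intro t
      by_cases h : ∃ b, FMem (pairN (rN t) (xN b)) f' r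
      · exact ⟨h.choose, fun _ => h.choose_spec⟩
      · exact ⟨bt, fun h' => absurd h' h⟩
    choose β hβ using hex
    obtain ⟨e, -, he⟩ := bdd (B := Set ℕ) (by rw [mk_set, mk_nat, two_power_aleph0]) β bt
    refine ⟨r, hr, Sum.inl (oN e), e, f', rfl, ?_⟩
    intro q' hq' t b heb hm
    rcases hdec t with h1 | h1
    · have h3 := (hβ t h1).mono hq'
      have h4 : β t ≠ b := ((he t).trans_le heb).ne
      exact h2 q' (hq'.trans (hr.trans hq)) _ ⟨β t, b, t, f', rfl, h4, h3, hm⟩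
    · exact h1 q' hq' b hm)
  obtain ⟨e, f'', he, hR⟩ := hR
  simp only [List.cons.injEq, Sum.inl.injEq, and_true] at he
  obtain ⟨rfl, rfl⟩ := he
  refine ⟨e, hy, ?_⟩
  intro b hb hbA
  by_contra hlt
  obtain ⟨s, hsS, hsf⟩ := honto _ hbA
  obtain ⟨hsN, hsω⟩ := (hS s).1 hsS
  obtain ⟨r, hr, rfl⟩ := h.real hsN hsω
  have h5 : val X G (pairN (rN r) (xN b)) ∈ val X G f' := by
    rw [val_pairN h.b.filt h.c hr (h.xX hb)]
    exact hsf
  exact nmem' h.b (h.c.pair hr (h.xX hb)) hf' hp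
    (fun q hq => hR q hq r b (not_lt.1 hlt)) h5

theorem WW_unique {p : Cond} {o : Option T} : {a | WW p o a}.Finite := by
  rcases o with _ | b
  · convert finite_empty (α := T)
    ext a
    simp [WW]
  · have h1 : {a | p.c a b ∧ gg p a ≤ b}.Subsingleton := by
      rintro a ⟨h1, h2⟩ a' ⟨h3, h4⟩
      exact gg2 p a a' b h1 h3 h2 h4
    refine ((finite_singleton b).union h1.finite).subset ?_
    rintro a ⟨-, h2⟩
    rcases h2 with rfl | h2
    · exact Or.inl rfl
    · exact Or.inr h2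

/-- **Bounded sets have Eberlein compact closures.** -/
theorem GS.eberlein_bdd (h : GS X G) {K : ZFSet.{0}} {e : T} (he : In X e)
    (hK : ∀ x ∈ K, ∃ o, Inp X o ∧ x = pt X G o ∧ ∀ b ∈ o, b ≤ e) :
    Eberlein (Mod X G) (val X G ΓN) K := by
  classical
  obtain ⟨p, hp, hep, hpX⟩ := h.d' he
  -- the embedding
  let ev : ZFSet.{0} → ZFSet.{0} → ℝ := fun x d =>
    if hh : ∃ (o : Option T) (a : T), Inp X o ∧ In X a ∧ pt X G o = x ∧ O X G a = d then
      e0 p hh.choose hh.choose_spec.choose else 0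
  have hev : ∀ o a, Inp X o → In X a → ev (pt X G o) (O X G a) = e0 p o a := by
    intro o a ho ha
    have hh : ∃ (o' : Option T) (a' : T), Inp X o' ∧ In X a' ∧ pt X G o' = pt X G o ∧
      O X G a' = O X G a := ⟨o, a, ho, ha, rfl, rfl⟩
    have h1 : ev (pt X G o) (O X G a) = e0 p hh.choose hh.choose_spec.choose := dif_pos hh
    obtain ⟨h2, h3, h4, h5⟩ := hh.choose_spec.choose_spec
    have h6 : ∀ (o'' : Option T) (a'' : T), o'' = o → a'' = a → e0 p o'' a'' = e0 p o a := by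
      rintro _ _ rfl rfl
      rfl
    exact h1.trans (h6 _ _ (h.pt_inj h2 ho h4) (h.O_inj h3 ha h5))
  have hW1 : ∀ o a, WW p o a → e0 p o a = 1 := fun o a hw => if_pos hw
  have hW0 : ∀ o a, ¬ WW p o a → e0 p o a = 0 := fun o a hw => if_neg hw
  refine ⟨val X G ΓN, ⟨_, h.ΓX, rfl⟩, ev, ?_, ?_, ?_, ?_, ?_⟩
  · -- the code
    refine ⟨val X G (codeN p), ⟨_, h.cX hpX, rfl⟩, ?_⟩
    intro x hx d hd n
    obtain ⟨o, ho, rfl, -⟩ := hK x hx
    obtain ⟨a, ha, rfl⟩ := h.mem_Γ.1 hd
    rw [hev o a ho ha, mem_val]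
    constructor
    · rintro ⟨⟨⟨o', a', n'⟩, ht⟩, -, h1, h2⟩
      have ho' : Inp X o' := h.c.fst _ _ h1
      have h3 := h.c.snd _ _ h1
      have ha' : In X a' := h.c.fst _ _ h3
      have h4 : val X G (pairN (ptN o') (pairN (oN a') (ordN Cond (n' : Ordinal.{0})))) =
          ZFSet.pair (pt X G o) (ZFSet.pair (O X G a) (nat n)) := h2
      rw [val_pairN h.b.filt h.c ho' h3, val_pairN h.b.filt h.c ha' (h.nat_X n'),
        h.val_nat] at h4
      obtain ⟨h5, h6⟩ := ZFSet.pair_injective h4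
      obtain ⟨h7, h8⟩ := ZFSet.pair_injective h6
      have e1 := h.pt_inj ho' ho h5
      have e2 := h.O_inj ha' ha h7
      have e3 := nat_inj h8
      subst e1 e2 e3
      exact ht
    · intro hlt
      refine ⟨⟨(o, a, n), hlt⟩, h.b.filt.top, h.c.pair ho (h.c.pair ha (h.nat_X n)), ?_⟩
      change val X G (pairN (ptN o) (pairN (oN a) (ordN Cond (n : Ordinal.{0})))) = _
      rw [val_pairN h.b.filt h.c ho (h.c.pair ha (h.nat_X n)),
        val_pairN h.b.filt h.c ha (h.nat_X n), h.val_nat]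
      rfl
  · refine ⟨1, ?_⟩
    intro x hx d hd
    obtain ⟨o, ho, rfl, -⟩ := hK x hx
    obtain ⟨a, ha, rfl⟩ := h.mem_Γ.1 hd
    rw [hev o a ho ha]
    by_cases hw : WW p o a
    · rw [hW1 o a hw]
      norm_num
    · rw [hW0 o a hw]
      norm_num
  · intro x hx ε hε
    obtain ⟨o, ho, rfl, -⟩ := hK x hx
    refine ((WW_unique (p := p) (o := o)).image (O X G)).subset ?_
    rintro d ⟨hd, hεd⟩
    obtain ⟨a, ha, rfl⟩ := h.mem_Γ.1 hd
    rw [hev o a ho ha] at hεd
    by_cases hw : WW p o a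
    · exact ⟨a, hw, rfl⟩
    · rw [hW0 o a hw, abs_zero] at hεd
      exact absurd hεd (not_le.2 hε)
  · intro x hx y hy hxy
    obtain ⟨o, ho, rfl, hoe⟩ := hK x hx
    obtain ⟨o', ho', rfl, hoe'⟩ := hK y hy
    have hoo : o ≠ o' := fun hh => hxy (by rw [hh])
    have key : ∃ a, In X a ∧ ¬ (WW p o a ↔ WW p o' a) := by
      rcases o with _ | b <;> rcases o' with _ | b'
      · exact absurd rfl hoo
      · refine ⟨b', h.inp_some.1 ho', ?_⟩
        intro hh
        exact hh.2 ⟨(hoe' b' rfl).trans_lt hep, Or.inl rfl⟩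
      · refine ⟨b, h.inp_some.1 ho, ?_⟩
        intro hh
        exact hh.1 ⟨(hoe b rfl).trans_lt hep, Or.inl rfl⟩
      · have hne : b ≠ b' := fun hh => hoo (by rw [hh])
        by_cases hc : p.c b b'
        · refine ⟨b', h.inp_some.1 ho', ?_⟩
          intro hh
          have h1 : WW p (some b) b' := hh.2 ⟨(hoe' b' rfl).trans_lt hep, Or.inl rfl⟩
          rcases h1.2 with h2 | h2
          · exact hne h2.symm
          · exact p.iso _ _ hc _ h2.1
        · refine ⟨b, h.inp_some.1 ho, ?_⟩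
          intro hh
          have h1 : WW p (some b') b := hh.1 ⟨(hoe b rfl).trans_lt hep, Or.inl rfl⟩
          rcases h1.2 with h2 | h2
          · exact hne h2
          · exact hc h2.1
    obtain ⟨a, ha, hna⟩ := key
    refine ⟨O X G a, h.mem_Γ.2 ⟨a, ha, rfl⟩, ?_⟩
    rw [hev o a ho ha, hev o' a ho' ha]
    intro heq
    apply hna
    by_cases w1 : WW p o a
    · by_cases w2 : WW p o' a
      · exact ⟨fun _ => w2, fun _ => w1⟩
      · rw [hW1 _ _ w1, hW0 _ _ w2] at heq
        norm_num at heq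
    · by_cases w2 : WW p o' a
      · rw [hW0 _ _ w1, hW1 _ _ w2] at heq
        norm_num at heq
      · exact ⟨fun hh => absurd hh w1, fun hh => absurd hh w2⟩
  · intro x hx d hd ε hε
    obtain ⟨o, ho, rfl, hoe⟩ := hK x hx
    obtain ⟨a, ha, rfl⟩ := h.mem_Γ.1 hd
    by_cases had : a < p.d
    · -- the coordinates
      have hfin : {b | In X b ∧ gc G a b ∧ b < gg p a}.Finite := by
        by_cases hga : gg p a < a
        · refine (h.fin hga).subset ?_
          rintro b ⟨-, hb⟩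
          exact hb
        · convert finite_empty (α := T)
          ext b
          simp only [mem_ofPred_eq, mem_empty_iff_false, iff_false]
          rintro ⟨-, hab, hb⟩
          exact hga (gg1 p a b ((h.gc_iff hp had).1 hab))
      refine ⟨insert (O X G a) (O X G '' {b | In X b ∧ gc G a b ∧ b < gg p a}),
        ⟨(hfin.image _).insert _, ?_⟩, ?_⟩
      · rintro z (rfl | ⟨b, hb, rfl⟩)
        · exact h.mem_Γ.2 ⟨a, ha, rfl⟩
        · exact h.mem_Γ.2 ⟨b, hb.1, rfl⟩
      · have key : ∀ o : Option T, Inp X o → (WW p o a ↔ O X G a ∈ pt X G o ∧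
            ∀ b, In X b → gc G a b → b < gg p a → O X G b ∉ pt X G o) := by
          intro o ho
          rcases o with _ | c
          · rw [h.pt_none]
            constructor
            · intro hw
              exact hw.elim
            · rintro ⟨h1, -⟩
              exact absurd h1 (ZFSet.notMem_empty _)
          · have hc := h.inp_some.1 ho
            rw [h.O_mem_some ha, h.gc_iff hp had]
            constructor
            · rintro ⟨-, hw⟩
              refine ⟨hw.imp id (fun h1 => h1.1), ?_⟩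
              intro b hb hab hbg hm
              rcases (h.O_mem_some hb).1 hm with rfl | h1
              · rcases hw with rfl | hw
                · exact absurd (gc_lt hab) (lt_irrefl _)
                · exact absurd hw.2 (not_le.2 hbg)
              · exact h.iso hab h1
            · rintro ⟨h1, h2⟩
              refine ⟨had, ?_⟩
              rcases h1 with h1 | h1
              · exact Or.inl h1
              · refine Or.inr ⟨h1, ?_⟩
                by_contra h3
                exact h2 c hc ((h.gc_iff hp had).2 h1) (not_le.1 h3)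
                  ((h.O_mem_some hc).2 (Or.inl rfl))
        intro y hy hag
        obtain ⟨o', ho', rfl, -⟩ := hK y hy
        have hiff : WW p o a ↔ WW p o' a := by
          rw [key o ho, key o' ho', hag _ (Or.inl rfl)]
          refine and_congr_right fun _ => ?_
          constructor
          · intro h1 b hb hab hbg hm
            exact h1 b hb hab hbg ((hag _ (Or.inr ⟨b, ⟨hb, hab, hbg⟩, rfl⟩)).2 hm)
          · intro h1 b hb hab hbg hm
            exact h1 b hb hab hbg ((hag _ (Or.inr ⟨b, ⟨hb, hab, hbg⟩, rfl⟩)).1 hm)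
        rw [hev o a ho ha, hev o' a ho' ha]
        by_cases w1 : WW p o a
        · rw [hW1 _ _ w1, hW1 _ _ (hiff.1 w1), _root_.sub_self, abs_zero]
          exact hε
        · rw [hW0 _ _ w1, hW0 _ _ (fun w2 => w1 (hiff.2 w2)), _root_.sub_self, abs_zero]
          exact hε
    · refine ⟨∅, ⟨finite_empty, fun z hz => absurd hz (notMem_empty z)⟩, ?_⟩
      have hno : ∀ o : Option T, ¬ WW p o a := by
        intro o hw
        rcases o with _ | b
        · exact hw
        · exact had hw.1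
      intro y hy _
      obtain ⟨o', ho', rfl, -⟩ := hK y hy
      rw [hev o a ho ha, hev o' a ho' ha, hW0 _ _ (hno o), hW0 _ _ (hno o'), _root_.sub_self, abs_zero]
      exact hε

/-- **Closures of small sets are Eberlein compact.** -/
theorem GS.small (h : GS X G) {A K : ZFSet.{0}} (hAX : A ⊆ val X G XN)
    (hA : SizeLeC (Mod X G) A) (hK : IsClosure (val X G ΓN) (val X G XN) A K) :
    Eberlein (Mod X G) (val X G ΓN) K := by
  obtain ⟨e, he, hb⟩ := h.bounded hA
  refine h.eberlein_bdd he ?_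
  intro x hx
  obtain ⟨hxX, hF⟩ := (hK x).1 hx
  obtain ⟨o, ho, rfl⟩ := h.mem_X.1 hxX
  refine ⟨o, ho, rfl, ?_⟩
  intro b hbo
  have hbo' : o = some b := hbo
  subst hbo'
  have hbX := h.inp_some.1 ho
  by_contra hlt
  rw [not_le] at hlt
  obtain ⟨y, hy, hag⟩ := hF (insert (O X G b) (O X G '' {c | In X c ∧ gc G b c ∧ c < e})) (by
    refine ⟨(((h.fin hlt).subset ?_).image _).insert _, ?_⟩
    · rintro c ⟨-, hc⟩
      exact hc
    · rintro z (rfl | ⟨c, hc, rfl⟩)
      · exact h.mem_Γ.2 ⟨b, hbX, rfl⟩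
      · exact h.mem_Γ.2 ⟨c, hc.1, rfl⟩)
  obtain ⟨o', ho', rfl⟩ := h.mem_X.1 (hAX hy)
  have h1 := (hag _ (Or.inl rfl)).1 ((h.O_mem_some hbX).2 (Or.inl rfl))
  rcases o' with _ | c
  · rw [h.pt_none] at h1
    exact absurd h1 (ZFSet.notMem_empty _)
  have hc := h.inp_some.1 ho'
  have hce := hb c hc hy
  rcases (h.O_mem_some hbX).1 h1 with rfl | h2
  · exact absurd hce (not_lt.2 hlt.le)
  · have h3 := (hag (O X G c) (Or.inr ⟨c, ⟨hc, h2, hce⟩, rfl⟩)).2
      ((h.O_mem_some hc).2 (Or.inl rfl))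
    rcases (h.O_mem_some hc).1 h3 with rfl | h4
    · exact absurd (gc_lt h2) (lt_irrefl _)
    · exact absurd (gc_lt h2) (not_lt.2 (gc_lt h4).le)

end Pool.Agent.Helper96.LS
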